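import Mathlib.LinearAlgebra.Matrix.SchurComplement
import Mathlib.Data.Complex.Basic
import Mathlib.Analysis.Complex.Basic
import Mathlib.GroupTheory.Perm.Sign
import Mathlib.Tactic

/-!
# The complex determinant of a quaternionic matrix is nonnegative
-/

set_option autoImplicit false

namespace Pool.Agent.R770.QC

open Finset Matrix

/-- compatibility with the quaternionic structure -/
def QS {α β : Type} (ia : α → α) (ea : α → ℂ) (ib : β → β) (eb : β → ℂ) (X : Matrix α β ℂ) : Prop :=
  ∀ a b, X (ia a) (ib b) = ea a * eb b * (starRingEnd ℂ) (X a b)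

theorem QS.mul {α β γ : Type} [Fintype β] {ia : α → α} {ea : α → ℂ} {ib : β → β} {eb : β → ℂ}
    {ic : γ → γ} {ec : γ → ℂ} {X : Matrix α β ℂ} {Y : Matrix β γ ℂ} (hb : Function.Involutive ib)
    (he : ∀ b, eb b * eb b = 1) (hX : QS ia ea ib eb X) (hY : QS ib eb ic ec Y) :
    QS ia ea ic ec (X * Y) := by
  intro a c
  rw [Matrix.mul_apply, Matrix.mul_apply, map_sum, Finset.mul_sum,
    ← Equiv.sum_comp (hb.toPerm ib)]
  refine Finset.sum_congr rfl fun b _ => ?_
  rw [Function.Involutive.coe_toPerm, hX, hY, map_mul]
  linear_combination (ea a * ec c * (starRingEnd ℂ) (X a b) * (starRingEnd ℂ) (Y b c)) * he b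

/-- signs -/
def es (s : Bool) : ℂ := if s then -1 else 1

theorem es_sq (s : Bool) : es s * es s = 1 := by cases s <;> simp [es]

/-- the quaternionic condition for square matrices -/
def QM {α : Type} (M : Matrix (α × Bool) (α × Bool) ℂ) : Prop :=
  QS (fun a : α × Bool => (a.1, !a.2)) (fun a => es a.2) (fun a : α × Bool => (a.1, !a.2))
    (fun a => es a.2) M

theorem inv_not {α : Type} : Function.Involutive (fun a : α × Bool => (a.1, !a.2)) := by
  intro a
  simp

theorem QS_bool_inv {A : Matrix Bool Bool ℂ} (hA : QS not es not es A) (hd : IsUnit A.det) :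
    QS not es not es A⁻¹ := by
  set B : Matrix Bool Bool ℂ := Matrix.of fun s t => es s * es t * (starRingEnd ℂ) (A⁻¹ (!s) (!t))
    with hB
  have hA' : ∀ s t, A s t = es s * es t * (starRingEnd ℂ) (A (!s) (!t)) := by
    intro s t
    have := hA (!s) (!t)
    rw [Bool.not_not, Bool.not_not] at this
    rw [this]
    cases s <;> cases t <;> simp [es]
  have h1 : B * A = 1 := by
    ext s t
    have h2 : (A⁻¹ * A) (!s) (!t) = (1 : Matrix Bool Bool ℂ) (!s) (!t) := by
      rw [Matrix.nonsing_inv_mul A hd]
    rw [Matrix.mul_apply] at h2 ⊢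
    have h3 : ∑ u, B s u * A u t = es s * es t *
        (starRingEnd ℂ) (∑ u, A⁻¹ (!s) u * A u (!t)) := by
      rw [map_sum, Finset.mul_sum, ← Equiv.sum_comp (Bool.involutive_not.toPerm not)]
      refine Finset.sum_congr rfl fun u _ => ?_
      rw [Function.Involutive.coe_toPerm, hB, Matrix.of_apply, hA' (!u) t, Bool.not_not, map_mul]
      have : es (!u) * es (!u) = 1 := es_sq _
      linear_combination (es s * es t * (starRingEnd ℂ) (A⁻¹ (!s) u) *
        (starRingEnd ℂ) (A u (!t))) * this
    rw [h3, h2]
    cases s <;> cases t <;> simp [es, Matrix.one_apply]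
  have h2 : A⁻¹ = B := Matrix.inv_eq_left_inv h1
  intro s t
  conv_lhs => rw [h2, hB]
  rw [Matrix.of_apply, Bool.not_not, Bool.not_not]
  cases s <;> cases t <;> simp [es]

theorem det_bool {A : Matrix Bool Bool ℂ} (hA : QS not es not es A) :
    A.det = ((Complex.normSq (A false false) + Complex.normSq (A false true) : ℝ) : ℂ) := by
  have h1 : A.det = A false false * A true true - A false true * A true false := by
    rw [← Matrix.det_submatrix_equiv_self finTwoEquiv, Matrix.det_fin_two]
    rfl
  have h2 : A true true = (starRingEnd ℂ) (A false false) := by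
    have := hA false false
    simpa [es] using this
  have h3 : A true false = -(starRingEnd ℂ) (A false true) := by
    have := hA false true
    simpa [es] using this
  rw [h1, h2, h3]
  push_cast
  rw [Complex.normSq_eq_conj_mul_self, Complex.normSq_eq_conj_mul_self]
  ring

/-- splitting off the first pair -/
def spl (n : ℕ) : Bool ⊕ (Fin n × Bool) ≃ Fin (n + 1) × Bool where
  toFun := Sum.elim (fun s => (0, s)) fun p => (p.1.succ, p.2)
  invFun p := if h : p.1 = 0 then Sum.inl p.2 else Sum.inr (p.1.pred h, p.2)
  left_inv x := by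
    rcases x with s | ⟨i, s⟩
    · simp
    · simp [Fin.succ_ne_zero]
  right_inv p := by
    obtain ⟨i, s⟩ := p
    by_cases h : i = 0
    · subst h; simp
    · simp [h]

theorem quat_det (n : ℕ) : ∀ M : Matrix (Fin n × Bool) (Fin n × Bool) ℂ, QM M →
    ∃ r : ℝ, 0 ≤ r ∧ M.det = r := by
  induction n with
  | zero =>
    intro M _
    refine ⟨1, zero_le_one, ?_⟩
    rw [Matrix.det_isEmpty, Complex.ofReal_one]
  | succ n ih =>
    -- the case where the first block is not zero
    have key : ∀ M : Matrix (Fin (n + 1) × Bool) (Fin (n + 1) × Bool) ℂ, QM M →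
        (∃ s t, M (0, s) (0, t) ≠ 0) → ∃ r : ℝ, 0 ≤ r ∧ M.det = r := by
      intro M hM hne
      set A : Matrix Bool Bool ℂ := Matrix.of fun s t => M (0, s) (0, t) with hA
      set B : Matrix Bool (Fin n × Bool) ℂ := Matrix.of fun s p => M (0, s) (p.1.succ, p.2) with hB
      set C : Matrix (Fin n × Bool) Bool ℂ := Matrix.of fun p t => M (p.1.succ, p.2) (0, t) with hC
      set D : Matrix (Fin n × Bool) (Fin n × Bool) ℂ :=
        Matrix.of fun p q => M (p.1.succ, p.2) (q.1.succ, q.2) with hD
      have hblk : M.submatrix (spl n) (spl n) = Matrix.fromBlocks A B C D := by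
        ext x y
        rcases x with s | p <;> rcases y with t | q <;> rfl
      have hAq : QS not es not es A := fun s t => hM (0, s) (0, t)
      have hBq : QS not es (fun a : Fin n × Bool => (a.1, !a.2)) (fun a => es a.2) B :=
        fun s p => hM (0, s) (p.1.succ, p.2)
      have hCq : QS (fun a : Fin n × Bool => (a.1, !a.2)) (fun a => es a.2) not es C :=
        fun p t => hM (p.1.succ, p.2) (0, t)
      have hDq : QM D := fun p q => hM (p.1.succ, p.2) (q.1.succ, q.2)
      have hpos : 0 < Complex.normSq (A false false) + Complex.normSq (A false true) := by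
        rcases lt_or_eq_of_le (add_nonneg (Complex.normSq_nonneg (A false false))
          (Complex.normSq_nonneg (A false true))) with h | h
        · exact h
        · exfalso
          have h1 : A false false = 0 := by
            rw [← Complex.normSq_eq_zero]
            linarith [Complex.normSq_nonneg (A false false), Complex.normSq_nonneg (A false true)]
          have h2 : A false true = 0 := by
            rw [← Complex.normSq_eq_zero]
            linarith [Complex.normSq_nonneg (A false false), Complex.normSq_nonneg (A false true)]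
          have h3 : A true true = 0 := by
            have := hAq false false
            rw [h1] at this
            simpa using this
          have h4 : A true false = 0 := by
            have := hAq false true
            rw [h2] at this
            simpa using this
          obtain ⟨s, t, hst⟩ := hne
          apply hst
          have : A s t = 0 := by cases s <;> cases t <;> assumption
          exact this
      have hdet := det_bool hAq
      have hu : IsUnit A.det := by
        rw [hdet, isUnit_iff_ne_zero]
        exact_mod_cast hpos.ne'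
      haveI := Matrix.invertibleOfIsUnitDet A hu
      obtain ⟨r, hr, hr'⟩ := ih (D - C * A⁻¹ * B) (by
        have h1 : QM (C * A⁻¹ * B) :=
          QS.mul Bool.involutive_not es_sq (QS.mul Bool.involutive_not es_sq hCq
            (QS_bool_inv hAq hu)) hBq
        intro p q
        rw [Matrix.sub_apply, Matrix.sub_apply, hDq p q, h1 p q, map_sub]
        ring)
      refine ⟨(Complex.normSq (A false false) + Complex.normSq (A false true)) * r,
        mul_nonneg hpos.le hr, ?_⟩
      rw [← Matrix.det_submatrix_equiv_self (spl n), hblk, Matrix.det_fromBlocks₁₁, hdet,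
        Matrix.invOf_eq_nonsing_inv, hr']
      push_cast
      ring
    intro M hM
    by_cases h : ∃ i s t, M (i, s) (0, t) ≠ 0
    · obtain ⟨i, s, t, hne⟩ := h
      let σ : Equiv.Perm (Fin (n + 1) × Bool) :=
        Equiv.prodCongrLeft (fun _ : Bool => Equiv.swap 0 i)
      have hσ : ∀ p, σ p = (Equiv.swap 0 i p.1, p.2) := fun p => rfl
      have hsign : Equiv.Perm.sign σ = 1 := by
        rw [Equiv.Perm.sign_prodCongrLeft, Fintype.prod_bool]
        exact Int.units_mul_self _
      obtain ⟨r, hr, hr'⟩ := key (M.submatrix σ id) (by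
        intro p q
        rw [Matrix.submatrix_apply, Matrix.submatrix_apply, hσ, hσ]
        exact hM (Equiv.swap 0 i p.1, p.2) q) ⟨s, t, by
          rw [Matrix.submatrix_apply, hσ, Equiv.swap_apply_left]
          exact hne⟩
      refine ⟨r, hr, ?_⟩
      rw [Matrix.det_permute, hsign] at hr'
      simpa using hr'
    · push Not at h
      refine ⟨0, le_rfl, ?_⟩
      rw [Complex.ofReal_zero]
      exact Matrix.det_eq_zero_of_column_eq_zero (0, false) fun p => h p.1 p.2 false

theorem quat_det' {α : Type} [Fintype α] [DecidableEq α] (M : Matrix (α × Bool) (α × Bool) ℂ)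
    (hM : QM M) : ∃ r : ℝ, 0 ≤ r ∧ M.det = r := by
  let e : Fin (Fintype.card α) × Bool ≃ α × Bool :=
    (Fintype.equivFin α).symm.prodCongr (Equiv.refl Bool)
  obtain ⟨r, hr, hr'⟩ := quat_det (Fintype.card α) (M.submatrix e e) (fun p q =>
    hM ((Fintype.equivFin α).symm p.1, p.2) ((Fintype.equivFin α).symm q.1, q.2))
  refine ⟨r, hr, ?_⟩
  rw [← hr', Matrix.det_submatrix_equiv_self]

end Pool.Agent.R770.QC
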