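import Pool.Agent.R770.NS.Sharp
import Pool.Agent.R770.QC.Quat

/-!
# The cone of products of quaternionic lines
-/

set_option autoImplicit false

namespace Pool.Agent.R770.QC

open Pool.Agent.Y195.HF Pool.Agent.R770.NS Finset

variable {m : ℕ}

/-- the quaternionic structure -/
noncomputable def sg (z : I2 m → ℂ) : I2 m → ℂ := fun p =>
  if p.2 = true then (starRingEnd ℂ) (z (p.1, false)) else -(starRingEnd ℂ) (z (p.1, true))

/-- the quaternionic line of a vector -/
noncomputable def ql (z : I2 m → ℂ) : Zc (I2 m → ℂ) := bv z (sg z)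

/-- the matrix of a family of vectors -/
noncomputable def MZ (Z : Fin m × Bool → I2 m → ℂ) : Matrix (I2 m) (I2 m) ℂ :=
  Matrix.of fun p q => if q.2 = true then sg (Z q.1) p else Z q.1 p

theorem MZ_QM (Z : Fin m × Bool → I2 m → ℂ) : QM (MZ Z) := by
  rintro ⟨x, s⟩ ⟨y, t⟩
  cases s <;> cases t <;> simp [MZ, sg, es]

theorem MZ_th (Z : Fin m × Bool → I2 m → ℂ) (x : Fin m × Bool) :
    Matrix.toLin' (MZ Z) (th m false x) = Z x ∧ Matrix.toLin' (MZ Z) (th m true x) = sg (Z x) := by
  constructor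
  · funext p
    rw [th, Matrix.toLin'_apply, Matrix.mulVec_single_one, Matrix.col_apply, MZ, Matrix.of_apply]
    simp
  · funext p
    rw [th, Matrix.toLin'_apply, Matrix.mulVec_single_one, Matrix.col_apply, MZ, Matrix.of_apply]
    simp

theorem LF_diag : LF m (zval (∏ x : Fin m × Bool, sd x)) = (-1) ^ m := by
  have h1 : (∏ x : Fin m × Bool, sd x : Zc (I2 m → ℂ)) =
      ((-1 : ℂ) ^ m) • (phi (th m false) * phi (th m true)) := by
    rw [Fintype.prod_prod_type]
    have h2 : ∀ b : Fin m, (∏ s : Bool, sd (b, s) : Zc (I2 m → ℂ)) =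
        (-1 : ℂ) • (bv (th m false (b, false)) (th m false (b, true)) *
          bv (th m true (b, false)) (th m true (b, true))) := by
      intro b
      rw [Fintype.prod_bool, mul_comm, sd, sd, bv_exch, neg_smul, one_smul]
    simp only [h2]
    rw [phi, phi, ← Finset.prod_mul_distrib, Finset.prod_smul, Finset.prod_const, Finset.card_univ,
      Fintype.card_fin]
  rw [h1, map_smul, map_smul, LF_phi, smul_eq_mul, mul_one]

theorem map_prodZ {κ : Type} (s : Finset κ) (F : (I2 m → ℂ) →ₗ[ℂ] (I2 m → ℂ))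
    (f g : κ → Zc (I2 m → ℂ)) (h : ∀ x, zval (f x) = ExteriorAlgebra.map F (zval (g x))) :
    zval (∏ x ∈ s, f x) = ExteriorAlgebra.map F (zval (∏ x ∈ s, g x)) := by
  classical
  induction s using Finset.induction_on with
  | empty => rw [prod_empty, prod_empty, map_one, map_one]
  | insert a s ha ih => rw [prod_insert ha, prod_insert ha, map_mul, map_mul, map_mul, ih, h]

theorem LZ_ql (Z : Fin m × Bool → I2 m → ℂ) : ∃ r : ℝ, 0 ≤ r ∧
    LZ m ((-1) ^ m * ∏ x, ql (Z x)) = r := by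
  obtain ⟨r, hr, hr'⟩ := quat_det' (MZ Z) (MZ_QM Z)
  refine ⟨r, hr, ?_⟩
  have h1 : zval (∏ x, ql (Z x)) =
      ExteriorAlgebra.map (Matrix.toLin' (MZ Z)) (zval (∏ x : Fin m × Bool, sd x)) := by
    refine map_prodZ _ _ _ _ fun x => ?_
    rw [sd, map_bv, (MZ_th Z x).1, (MZ_th Z x).2]
    rfl
  have h2 : LF m (zval (∏ x, ql (Z x))) = (MZ Z).det * (-1) ^ m := by
    rw [h1, LF, LinearMap.smul_apply, topF_map, smul_eq_mul, LinearMap.det_toLin',
      mul_left_comm, ← smul_eq_mul (kap m), ← LinearMap.smul_apply]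
    exact congrArg (fun t => (MZ Z).det * t) LF_diag
  have h3 : (-1 : Zc (I2 m → ℂ)) ^ m * ∏ x, ql (Z x) = ((-1 : ℂ) ^ m) • ∏ x, ql (Z x) := by
    rw [Algebra.smul_def, map_pow, map_neg, map_one]
  rw [h3, map_smul, LZ_apply, h2, hr', smul_eq_mul]
  have h4 : (-1 : ℂ) ^ m * (-1) ^ m = 1 := by
    rw [← mul_pow]; norm_num
  linear_combination (r : ℂ) * h4

/-- the cone -/
noncomputable def qcone (m n : ℕ) : AddSubmonoid (Zc (I2 m → ℂ)) :=
  AddSubmonoid.closure {y | ∃ (r : ℝ) (Z : Fin n → I2 m → ℂ), 0 ≤ r ∧ y = r • ∏ i, ql (Z i)}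

theorem qcone_gen {n : ℕ} {r : ℝ} (hr : 0 ≤ r) (Z : Fin n → I2 m → ℂ) :
    r • ∏ i, ql (Z i) ∈ qcone m n :=
  AddSubmonoid.subset_closure ⟨r, Z, hr, rfl⟩

theorem qcone_line (z : I2 m → ℂ) : ql z ∈ qcone m 1 := by
  have h := qcone_gen (m := m) (n := 1) zero_le_one (fun _ => z)
  rwa [Fin.prod_univ_one, one_smul] at h

theorem qcone_one : (1 : Zc (I2 m → ℂ)) ∈ qcone m 0 := by
  have h := qcone_gen (m := m) (n := 0) zero_le_one (fun _ => 0)
  simpa using h

theorem qcone_smul {n : ℕ} {x : Zc (I2 m → ℂ)} (hx : x ∈ qcone m n) {c : ℝ} (hc : 0 ≤ c) :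
    c • x ∈ qcone m n := by
  unfold qcone at hx
  induction hx using AddSubmonoid.closure_induction with
  | mem x hx =>
    obtain ⟨r, Z, hr, rfl⟩ := hx
    rw [smul_smul]
    exact qcone_gen (mul_nonneg hc hr) Z
  | zero => rw [smul_zero]; exact (qcone m n).zero_mem
  | add x y _ _ hx hy => rw [smul_add]; exact (qcone m n).add_mem hx hy

theorem qcone_mul {n n' : ℕ} {x y : Zc (I2 m → ℂ)} (hx : x ∈ qcone m n) (hy : y ∈ qcone m n') :
    x * y ∈ qcone m (n + n') := by
  unfold qcone at hx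
  induction hx using AddSubmonoid.closure_induction with
  | mem x hx =>
    obtain ⟨r, A, hr, rfl⟩ := hx
    unfold qcone at hy
    induction hy using AddSubmonoid.closure_induction with
    | mem y hy =>
      obtain ⟨s, B, hs, rfl⟩ := hy
      have h := qcone_gen (m := m) (n := n + n') (r := r * s) (mul_nonneg hr hs) (Fin.append A B)
      rw [Fin.prod_univ_add] at h
      simp only [Fin.append_left, Fin.append_right] at h
      rw [smul_mul_smul_comm]
      exact h
    | zero => rw [mul_zero]; exact (qcone m (n + n')).zero_mem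
    | add y z _ _ hy hz => rw [mul_add]; exact (qcone m (n + n')).add_mem hy hz
  | zero => rw [zero_mul]; exact (qcone m (n + n')).zero_mem
  | add x z _ _ hx hz => rw [add_mul]; exact (qcone m (n + n')).add_mem hx hz

theorem qcone_pow {n : ℕ} {x : Zc (I2 m → ℂ)} (hx : x ∈ qcone m n) (k : ℕ) :
    x ^ k ∈ qcone m (k * n) := by
  induction k with
  | zero => rw [pow_zero, zero_mul]; exact qcone_one
  | succ k ih => rw [pow_succ, Nat.succ_mul]; exact qcone_mul ih hx

theorem qcone_LR {y : Zc (I2 m → ℂ)} (hy : y ∈ qcone m (m * 2)) : 0 ≤ LR m ((-1) ^ m * y) := by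
  unfold qcone at hy
  induction hy using AddSubmonoid.closure_induction with
  | mem y hy =>
    obtain ⟨r, Z, hr, rfl⟩ := hy
    have hcard : Fintype.card (Fin m × Bool) = m * 2 := by simp
    let e : Fin m × Bool ≃ Fin (m * 2) := Fintype.equivFinOfCardEq hcard
    obtain ⟨s, hs, hs'⟩ := LZ_ql (fun x => Z (e x))
    rw [← Equiv.prod_comp e, mul_smul_comm, map_smul, smul_eq_mul, LR_LZ, hs', Complex.ofReal_re]
    exact mul_nonneg hr hs
  | zero => rw [mul_zero, map_zero]
  | add x y _ _ hx hy => rw [mul_add, map_add]; exact add_nonneg hx hy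

end Pool.Agent.R770.QC
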