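import Pool.Agent.R770.QC.Pair

/-!
# The dual of the quaternionic cone
-/

set_option autoImplicit false

namespace Pool.Agent.R770.QC

open Pool.Agent.Y195.HF Pool.Agent.W666.GB Pool.Agent.W669.HD Pool.Agent.R770.NS Finset

/-- The quaternionic sectional curvature of `Q`, for the quaternionic vectors
`p₀ + i p₁ + j p₂ + k p₃` and `r₀ + i r₁ + j r₂ + k r₃`. For `p = (p₀, 0, 0, 0)` and
`r = (r₀, 0, 0, 0)` it is `Q(p₀,r₀,p₀,r₀)`, for `p = (p₀, p₁, 0, 0)` and `r = (r₀, r₁, 0, 0)` it is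
the complex sectional curvature. -/
def QSC {X : Type*} (Q : X → X → X → X → ℝ) (p r : Fin 4 → X) : ℝ :=
  ∑ s, ∑ t, Q (p s) (r t) (p s) (r t) - 2 * (
    (Q (p 0) (p 1) (r 0) (r 1) + Q (p 0) (p 1) (r 2) (r 3) +
      Q (p 2) (p 3) (r 0) (r 1) + Q (p 2) (p 3) (r 2) (r 3)) +
    (Q (p 0) (p 2) (r 0) (r 2) + Q (p 0) (p 2) (r 3) (r 1) +
      Q (p 3) (p 1) (r 0) (r 2) + Q (p 3) (p 1) (r 3) (r 1)) +
    (Q (p 0) (p 3) (r 0) (r 3) + Q (p 0) (p 3) (r 1) (r 2) +
      Q (p 1) (p 2) (r 0) (r 3) + Q (p 1) (p 2) (r 1) (r 2)))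

section alg

variable {X : Type*} {F : X → X → X → X → ℝ}

/-- the curvature of the pairs of a quaternionic vector -/
def pp (F : X → X → X → X → ℝ) (p r : Fin 4 → X) : ℝ :=
    (F (p 0) (p 1) (r 0) (r 1) + F (p 0) (p 1) (r 2) (r 3) +
      F (p 2) (p 3) (r 0) (r 1) + F (p 2) (p 3) (r 2) (r 3)) +
    (F (p 0) (p 2) (r 0) (r 2) + F (p 0) (p 2) (r 3) (r 1) +
      F (p 3) (p 1) (r 0) (r 2) + F (p 3) (p 1) (r 3) (r 1)) +
    (F (p 0) (p 3) (r 0) (r 3) + F (p 0) (p 3) (r 1) (r 2) +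
      F (p 1) (p 2) (r 0) (r 3) + F (p 1) (p 2) (r 1) (r 2))

theorem pp_self (anti : ∀ x y z w, F y x z w = - F x y z w) (pair : ∀ x y z w, F z w x y = F x y z w)
    (bi : ∀ x y z w, F x y z w + F y z x w + F z x y w = 0) (p : Fin 4 → X) :
    ∑ s, ∑ t, F (p s) (p t) (p s) (p t) = 2 * pp F p p := by
  have h0 : ∀ a c d, F a a c d = 0 := fun a c d => by linarith [anti a a c d]
  have h1 : ∀ a b, F b a b a = F a b a b := fun a b => by
    rw [anti a b b a, pair, anti a b a b, neg_neg]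
  simp only [Fin.sum_univ_four, pp, h0]
  rw [h1 (p 0) (p 1), h1 (p 0) (p 2), h1 (p 0) (p 3), h1 (p 1) (p 2), h1 (p 1) (p 3),
    h1 (p 2) (p 3)]
  have e1 := pair (p 0) (p 1) (p 2) (p 3)
  have e2 := pair (p 0) (p 2) (p 3) (p 1)
  have e3 := pair (p 0) (p 3) (p 1) (p 2)
  have e4 : F (p 3) (p 1) (p 0) (p 2) = F (p 2) (p 0) (p 1) (p 3) := by
    rw [anti (p 1) (p 3), pair (p 0) (p 2) (p 1) (p 3), anti (p 2) (p 0)]
    ring
  have e5 := bi (p 0) (p 1) (p 2) (p 3)
  linarith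

end alg

section comp

variable {I : Type} [Fintype I]

/-- exchange of the pairs -/
def e1324 : I × I × I × I ≃ I × I × I × I where
  toFun p := (p.2.2.1, p.2.2.2, p.1, p.2.1)
  invFun p := (p.2.2.1, p.2.2.2, p.1, p.2.1)
  left_inv _ := rfl
  right_inv _ := rfl

/-- cyclic permutation -/
def e231 : I × I × I × I ≃ I × I × I × I where
  toFun p := (p.2.1, p.2.2.1, p.1, p.2.2.2)
  invFun p := (p.2.2.1, p.1, p.2.1, p.2.2.2)
  left_inv _ := rfl
  right_inv _ := rfl

/-- the multilinear extension of a component tensor -/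
noncomputable def mo (Q : I → I → I → I → ℝ) (a b c d : I → ℝ) : ℝ :=
  pr Q (fun i j k l => a i * b j * c k * d l)

theorem mo_anti {Q : I → I → I → I → ℝ} (hQ : CC Q) (a b c d : I → ℝ) :
    mo Q b a c d = - mo Q a b c d := by
  unfold mo pr
  rw [← Equiv.sum_comp e12, ← Finset.sum_neg_distrib]
  refine Finset.sum_congr rfl fun p _ => ?_
  simp only [e12, Equiv.coe_fn_mk]
  rw [hQ.anti]
  ring

theorem mo_pair {Q : I → I → I → I → ℝ} (hQ : CC Q) (a b c d : I → ℝ) :
    mo Q c d a b = mo Q a b c d := by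
  unfold mo pr
  rw [← Equiv.sum_comp e1324]
  refine Finset.sum_congr rfl fun p _ => ?_
  simp only [e1324, Equiv.coe_fn_mk]
  rw [hQ.pair]
  ring

theorem mo_bi {Q : I → I → I → I → ℝ} (hQ : CC Q) (a b c d : I → ℝ) :
    mo Q a b c d + mo Q b c a d + mo Q c a b d = 0 := by
  have h1 : mo Q b c a d = ∑ p : I × I × I × I, Q p.2.1 p.2.2.1 p.1 p.2.2.2 *
      (a p.1 * b p.2.1 * c p.2.2.1 * d p.2.2.2) := by
    unfold mo pr
    rw [← Equiv.sum_comp e231]
    refine Finset.sum_congr rfl fun p _ => ?_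
    simp only [e231, Equiv.coe_fn_mk]
    ring
  have h2 : mo Q c a b d = ∑ p : I × I × I × I, Q p.2.2.1 p.1 p.2.1 p.2.2.2 *
      (a p.1 * b p.2.1 * c p.2.2.1 * d p.2.2.2) := by
    unfold mo pr
    rw [← Equiv.sum_comp e231.symm]
    refine Finset.sum_congr rfl fun p _ => ?_
    simp only [e231, Equiv.coe_fn_mk, Equiv.coe_fn_symm_mk]
    ring
  rw [h1, h2]
  unfold mo pr
  rw [← Finset.sum_add_distrib, ← Finset.sum_add_distrib]
  refine Finset.sum_eq_zero fun p _ => ?_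
  linear_combination (a p.1 * b p.2.1 * c p.2.2.1 * d p.2.2.2) *
    hQ.bianchi p.1 p.2.1 p.2.2.1 p.2.2.2

theorem pr_sum {κ : Type} (s : Finset κ) (Q : I → I → I → I → ℝ) (T : κ → I → I → I → I → ℝ) :
    pr Q (fun i j k l => ∑ a ∈ s, T a i j k l) = ∑ a ∈ s, pr Q (T a) := by
  unfold pr
  rw [Finset.sum_comm]
  refine Finset.sum_congr rfl fun p _ => ?_
  rw [Finset.mul_sum]

theorem pr_SS {κ : Type} [Fintype κ] (Q : I → I → I → I → ℝ) (v : κ → I → ℝ) :
    pr Q (fun i j k l => (∑ s, v s i * v s k) * ∑ s, v s j * v s l) =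
      ∑ s, ∑ t, mo Q (v s) (v t) (v s) (v t) := by
  have h : (fun i j k l => (∑ s, v s i * v s k) * ∑ s, v s j * v s l) =
      fun i j k l => ∑ s, ∑ t, v s i * v t j * v s k * v t l := by
    funext i j k l
    rw [Finset.sum_mul_sum]
    refine Finset.sum_congr rfl fun s _ => Finset.sum_congr rfl fun t _ => ?_
    ring
  rw [h, pr_sum univ Q (fun s i j k l => ∑ t, v s i * v t j * v s k * v t l)]
  refine Finset.sum_congr rfl fun s _ => ?_
  rw [pr_sum univ Q (fun t i j k l => v s i * v t j * v s k * v t l)]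
  rfl

/-- the skew form `∑ u ∧ w` -/
def wd {κ : Type} [Fintype κ] (u w : κ → I → ℝ) (i j : I) : ℝ :=
  ∑ c, (u c i * w c j - w c i * u c j)

theorem pr_BB {κ : Type} [Fintype κ] {Q : I → I → I → I → ℝ} (hQ : CC Q) (u w : κ → I → ℝ) :
    pr Q (fun i j k l => wd u w i j * wd u w k l) =
      4 * ∑ c, ∑ d, mo Q (u c) (w c) (u d) (w d) := by
  have h : (fun i j k l => wd u w i j * wd u w k l) =
      fun i j k l => ∑ c, ∑ d, (u c i * w c j * u d k * w d l + ((-1) * (u c i * w c j * w d k * u d l)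
        + ((-1) * (w c i * u c j * u d k * w d l) + w c i * u c j * w d k * u d l))) := by
    funext i j k l
    unfold wd
    rw [Finset.sum_mul_sum]
    refine Finset.sum_congr rfl fun s _ => Finset.sum_congr rfl fun t _ => ?_
    ring
  have h34 : ∀ a b c d, mo Q a b d c = - mo Q a b c d := by
    intro a b c d
    rw [← mo_pair hQ, mo_anti hQ, mo_pair hQ]
  rw [h, pr_sum univ Q (fun c i j k l => ∑ d, (u c i * w c j * u d k * w d l +
    ((-1) * (u c i * w c j * w d k * u d l)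
        + ((-1) * (w c i * u c j * u d k * w d l) + w c i * u c j * w d k * u d l)))), Finset.mul_sum]
  refine Finset.sum_congr rfl fun c _ => ?_
  rw [pr_sum univ Q (fun d i j k l => (u c i * w c j * u d k * w d l +
    ((-1) * (u c i * w c j * w d k * u d l)
        + ((-1) * (w c i * u c j * u d k * w d l) + w c i * u c j * w d k * u d l)))), Finset.mul_sum]
  refine Finset.sum_congr rfl fun d _ => ?_
  rw [pr_add Q (fun i j k l => u c i * w c j * u d k * w d l),
    pr_add Q (fun i j k l => (-1) * (u c i * w c j * w d k * u d l)),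
    pr_add Q (fun i j k l => (-1) * (w c i * u c j * u d k * w d l)),
    pr_smul Q (fun i j k l => u c i * w c j * w d k * u d l),
    pr_smul Q (fun i j k l => w c i * u c j * u d k * w d l)]
  show mo Q (u c) (w c) (u d) (w d) + (-1 * mo Q (u c) (w c) (w d) (u d) +
    (-1 * mo Q (w c) (u c) (u d) (w d) + mo Q (w c) (u c) (w d) (u d))) = _
  rw [h34 (u c) (w c) (u d) (w d), mo_anti hQ (u c) (w c) (u d) (w d),
    mo_anti hQ (u c) (w c) (w d) (u d), h34 (u c) (w c) (u d) (w d)]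
  ring

end comp

end Pool.Agent.R770.QC
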