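import Pool.Agent.R770.QC.Sep2

/-!
# Fields of curvature tensors
-/

set_option autoImplicit false

namespace Pool.Agent.R770.QC

open Pool.Agent.Y195.HF Pool.Agent.W666.GB Pool.Agent.W669.HD Pool.Agent.R770.NS

variable {m : ℕ} {V : Type} [NormedAddCommGroup V] [InnerProductSpace ℝ V]

theorem both_bound (e : OrthonormalBasis (Fin m × Bool) ℝ V) {R : V → V → V → V → ℝ}
    (hR : AlgCurv R) {δ : ℝ} (hδ : 0 ≤ δ) (h : DualNeg e δ R ∨ QCone δ R) :
    roundGB m δ ≤ (-1) ^ m * gbc e R := by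
  rcases h with h | h
  · exact dual_bound e hR hδ h
  · exact q_bound e hδ h

theorem field_both {M : Type} [MeasurableSpace M] (μ : MeasureTheory.Measure M)
    (K : CurvField m M) (h : ∀ p, DualNeg (K.e p) 0 (K.R p) ∨ QCone 0 (K.R p)) :
    0 ≤ (-1) ^ m * ∫ p, K.gb p ∂μ := by
  rw [← MeasureTheory.integral_const_mul]
  refine MeasureTheory.integral_nonneg fun p => ?_
  exact (roundGB_nonneg le_rfl).trans (both_bound (K.e p) (K.curv p) le_rfl (h p))

theorem field_both' {M : Type} [MeasurableSpace M] (μ : MeasureTheory.Measure M)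
    [MeasureTheory.IsFiniteMeasure μ] (K : CurvField m M) (hi : MeasureTheory.Integrable K.gb μ)
    {δ : ℝ} (hδ : 0 ≤ δ) (h : ∀ p, DualNeg (K.e p) δ (K.R p) ∨ QCone δ (K.R p)) :
    roundGB m δ * μ.real Set.univ ≤ (-1) ^ m * ∫ p, K.gb p ∂μ := by
  rw [← MeasureTheory.integral_const_mul]
  have h1 : roundGB m δ * μ.real Set.univ = ∫ _, roundGB m δ ∂μ := by
    rw [MeasureTheory.integral_const, smul_eq_mul, mul_comm]
  rw [h1]
  refine MeasureTheory.integral_mono (MeasureTheory.integrable_const _) (hi.const_mul _) fun p => ?_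
  exact both_bound (K.e p) (K.curv p) hδ (h p)

end Pool.Agent.R770.QC
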