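import Pool.Agent.R770.QC.Main

/-!
# The sign on the quaternionic cone
-/

set_option autoImplicit false

namespace Pool.Agent.R770.QC

open Pool.Agent.Y195.HF Pool.Agent.W666.GB Pool.Agent.W669.HD Pool.Agent.R770.NS Finset

variable {m : ℕ} {V : Type} [NormedAddCommGroup V] [InnerProductSpace ℝ V]

/-- `3 (S(x,z) S(y,w) - S(x,w) S(y,z))` minus the curvature tensors of three skew forms. -/
def EH (S B₁ B₂ B₃ : V → V → ℝ) (x y z w : V) : ℝ :=
  3 * knSq S x y z w - (skewCurv B₁ x y z w + skewCurv B₂ x y z w + skewCurv B₃ x y z w)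

theorem eL_EH (S B₁ B₂ B₃ : V → V → ℝ) (e : Fin m × Bool → V) :
    eL (cx (fun i j k l => EH S B₁ B₂ B₃ (e i) (e j) (e k) (e l) : T4 m)) =
      (-1 / 2 : ℝ) • (12 * ff false true (co e S) ^ 2 +
        4 * (qi (co e B₁) + qi (co e B₂) + qi (co e B₃))) := by
  have h1 : (cx (fun i j k l => EH S B₁ B₂ B₃ (e i) (e j) (e k) (e l) : T4 m) : C4 m) =
      fun i j k l => (3 : ℂ) * cx (kR fun i j => S (e i) (e j)) i j k l +
        ((-1 : ℂ) * cx (scR fun i j => B₁ (e i) (e j)) i j k l +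
        ((-1 : ℂ) * cx (scR fun i j => B₂ (e i) (e j)) i j k l +
        (-1 : ℂ) * cx (scR fun i j => B₃ (e i) (e j)) i j k l)) := by
    funext i j k l
    simp only [cx, EH, knSq, kR, skewCurv, scR]
    push_cast
    ring
  rw [h1, eL_add (fun i j k l => (3 : ℂ) * cx (kR fun i j => S (e i) (e j)) i j k l),
    eL_add (fun i j k l => (-1 : ℂ) * cx (scR fun i j => B₁ (e i) (e j)) i j k l),
    eL_add (fun i j k l => (-1 : ℂ) * cx (scR fun i j => B₂ (e i) (e j)) i j k l),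
    eL_smul, eL_smul, eL_smul, eL_smul, eL_kR, eL_scR, eL_scR, eL_scR]
  simp only [co, Algebra.smul_def, map_neg, map_ofNat, map_one, map_div₀]
  have h2 : algebraMap ℝ (Zc (I2 m → ℂ)) (-1 / 2) * 2 = -1 := by
    rw [show (2 : Zc (I2 m → ℂ)) = algebraMap ℝ (Zc (I2 m → ℂ)) 2 from (map_ofNat _ 2).symm,
      ← map_mul, show (-1 / 2 : ℝ) * 2 = -1 by norm_num, map_neg, map_one]
  generalize ff false true (cm fun i j => S (e i) (e j)) = s
  generalize qi (cm fun i j => B₁ (e i) (e j)) = b₁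
  generalize qi (cm fun i j => B₂ (e i) (e j)) = b₂
  generalize qi (cm fun i j => B₃ (e i) (e j)) = b₃
  linear_combination (-(6 * s ^ 2 + 2 * (b₁ + b₂ + b₃))) * h2

theorem sq_mem {S B₁ B₂ B₃ : V → V → ℝ} (h : QPos S B₁ B₂ B₃) (e : Fin m × Bool → V) :
    WQ (co e S) (co e B₁) (co e B₂) (co e B₃) ^ 2 ∈ qcone m 2 :=
  qcone_pow (WQ_mem h e) 2

theorem four_mem {S B₁ B₂ B₃ : V → V → ℝ} (h : QPos S B₁ B₂ B₃) (e : Fin m × Bool → V) :
    WQ (co e S) (co e B₁) (co e B₂) (co e B₃) ^ 2 +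
    WQ (co e S) (co e B₁) (-co e B₂) (-co e B₃) ^ 2 +
    WQ (co e S) (-co e B₁) (co e B₂) (-co e B₃) ^ 2 +
    WQ (co e S) (-co e B₁) (-co e B₂) (co e B₃) ^ 2 ∈ qcone m 2 := by
  have h2 := sq_mem h.flip e
  have h3 := sq_mem h.cyc.flip.cyc.cyc e
  have h4 := sq_mem h.cyc.cyc.flip.cyc e
  simp only [co_neg] at h2 h3 h4
  exact (qcone m 2).add_mem ((qcone m 2).add_mem ((qcone m 2).add_mem (sq_mem h e) h2) h3) h4

theorem EH_mem {S B₁ B₂ B₃ : V → V → ℝ} (h : QPos S B₁ B₂ B₃) (e : Fin m × Bool → V) :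
    -eL (cx (fun i j k l => EH S B₁ B₂ B₃ (e i) (e j) (e k) (e l) : T4 m)) ∈ qcone m 2 := by
  rw [eL_EH, ← twelve]
  have h1 := four_mem h e
  have h2 := four_mem h.cyc e
  have h3 := four_mem h.cyc.cyc e
  have h4 := qcone_smul ((qcone m 2).add_mem ((qcone m 2).add_mem h1 h2) h3)
    (show (0 : ℝ) ≤ 1 / 2 by norm_num)
  convert h4 using 1
  rw [← neg_smul]
  norm_num

/-- monotonicity -/
theorem gm_q {D P : T4 m} (hD : -eL (cx D) ∈ qcone m 2) (hP : -eL (cx P) ∈ qcone m 2) :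
    gm (fun _ : Fin m => D) ≤ gm (fun _ : Fin m => (fun i j k l => D i j k l + P i j k l : T4 m)) := by
  have hsum : eL (cx (fun i j k l => D i j k l + P i j k l : T4 m)) = eL (cx D) + eL (cx P) := by
    rw [← eL_add (cx D)]
    congr 1
    funext i j k l
    simp only [cx]
    push_cast
    rfl
  rw [gm_LR, gm_LR, hsum, add_pow, map_sum, Finset.sum_range_succ]
  have h1 : eL (cx D) ^ m * eL (cx P) ^ (m - m) *
      ((m.choose m : ℕ) : Zc (I2 m → ℂ)) = eL (cx D) ^ m := by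
    rw [Nat.sub_self, pow_zero, Nat.choose_self, Nat.cast_one, mul_one, mul_one]
  rw [h1]
  have h2 : 0 ≤ ∑ k ∈ Finset.range m, LR m (eL (cx D) ^ k * eL (cx P) ^ (m - k) *
      ((m.choose k : ℕ) : Zc (I2 m → ℂ))) := by
    refine Finset.sum_nonneg fun k hk => ?_
    rw [Finset.mem_range] at hk
    have h3 := qcone_mul (qcone_pow hD k) (qcone_pow hP (m - k))
    rw [← Nat.add_mul, Nat.add_sub_cancel' hk.le] at h3
    have h4 := qcone_LR h3
    have e1 : eL (cx D) ^ k * eL (cx P) ^ (m - k) * ((m.choose k : ℕ) : Zc (I2 m → ℂ)) =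
        ((m.choose k : ℕ) : ℝ) • ((-1) ^ m * ((-eL (cx D)) ^ k * (-eL (cx P)) ^ (m - k))) := by
      rw [neg_pow (eL (cx D)), neg_pow (eL (cx P)), Algebra.smul_def, map_natCast]
      have e2 : (-1 : Zc (I2 m → ℂ)) ^ m * ((-1) ^ k * (-1) ^ (m - k)) = 1 := by
        rw [← pow_add, Nat.add_sub_cancel' hk.le, ← mul_pow]
        norm_num
      linear_combination (-((m.choose k : ℕ) : Zc (I2 m → ℂ)) * eL (cx D) ^ k *
        eL (cx P) ^ (m - k)) * e2
    rw [e1, map_smul, smul_eq_mul]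
    positivity
  linarith

/-- The hypothesis: `-R` is the sum of `δ` times the unit tensor and of nonnegative multiples of
tensors `EH` of positive semidefinite quaternionic Hermitian forms. -/
def QCone (δ : ℝ) (R : V → V → V → V → ℝ) : Prop :=
  ∃ (n : ℕ) (c : Fin n → ℝ) (S B₁ B₂ B₃ : Fin n → V → V → ℝ),
    (∀ a, 0 ≤ c a ∧ QPos (S a) (B₁ a) (B₂ a) (B₃ a)) ∧
    ∀ x y z w, R x y z w =
      -(δ * unitT x y z w + ∑ a, c a * EH (S a) (B₁ a) (B₂ a) (B₃ a) x y z w)

theorem zero_skew : SkewForm (fun _ _ : V => (0 : ℝ)) :=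
  ⟨fun _ _ _ => by simp, fun _ _ _ => by simp, fun _ _ => by simp⟩

theorem inner_QPos {l : ℝ} (hl : 0 ≤ l) :
    QPos (fun x y : V => l * inner ℝ x y) (fun _ _ => 0) (fun _ _ => 0) (fun _ _ => 0) where
  symm := ⟨fun x x' y => by rw [inner_add_left]; ring,
    fun t x y => by rw [real_inner_smul_left]; ring, fun x y => by rw [real_inner_comm]⟩
  skew₁ := zero_skew
  skew₂ := zero_skew
  skew₃ := zero_skew
  pos x₀ x₁ x₂ x₃ := by
    simp only [real_inner_self_eq_norm_sq]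
    positivity

theorem eL_csmul (c : ℝ) (T : T4 m) :
    eL (cx (fun i j k l => c * T i j k l : T4 m)) = c • eL (cx T) := by
  have h : (cx (fun i j k l => c * T i j k l : T4 m) : C4 m) =
      fun i j k l => (c : ℂ) * cx T i j k l := by
    funext i j k l
    simp only [cx]
    push_cast
    rfl
  rw [h, eL_smul, Complex.coe_smul]

theorem csum_mem {κ : Type} [Fintype κ] (T : κ → T4 m) (c : κ → ℝ) (hc : ∀ a, 0 ≤ c a)
    (hT : ∀ a, -eL (cx (T a)) ∈ qcone m 2) :
    -eL (cx (fun i j k l => ∑ a, c a * T a i j k l : T4 m)) ∈ qcone m 2 := by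
  have h : (cx (fun i j k l => ∑ a, c a * T a i j k l : T4 m) : C4 m) =
      fun i j k l => ∑ a, cx (fun i j k l => c a * T a i j k l : T4 m) i j k l := by
    funext i j k l
    simp only [cx]
    push_cast
    rfl
  rw [h, eL_sum (fun a => cx (fun i j k l => c a * T a i j k l : T4 m)), ← Finset.sum_neg_distrib]
  refine AddSubmonoid.sum_mem _ fun a _ => ?_
  rw [eL_csmul, ← smul_neg]
  exact qcone_smul (hT a) (hc a)

theorem q_bound (e : OrthonormalBasis (Fin m × Bool) ℝ V) {R : V → V → V → V → ℝ}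
    {δ : ℝ} (hδ : 0 ≤ δ) (h : QCone δ R) :
    roundGB m δ ≤ (-1) ^ m * gbc e R := by
  classical
  obtain ⟨n, c, S, B₁, B₂, B₃, hq, hR⟩ := h
  rw [gbc_eq]
  have hπ := Real.pi_pos
  have hc : 0 < 1 / ((8 * Real.pi) ^ m * (m.factorial : ℝ)) := by positivity
  have hr : roundGB m δ = 1 / ((8 * Real.pi) ^ m * m.factorial) *
      (2 ^ m * (δ ^ m * (2 * m).factorial)) := by
    unfold roundGB
    have : (8 * Real.pi) ^ m = 2 ^ m * (4 * Real.pi) ^ m := by
      rw [← mul_pow]; congr 1; ring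
    rw [this]
    field_simp
  rw [hr]
  refine mul_le_mul_of_nonneg_left ?_ hc.le
  have hD : -eL (cx (fun i j k l => δ * unitCurv i j k l : T4 m)) ∈ qcone m 2 := by
    have h1 := EH_mem (inner_QPos (V := V) zero_le_one) (fun i => e i)
    have h2 := qcone_smul h1 (show 0 ≤ δ / 3 by positivity)
    rw [smul_neg, ← eL_csmul] at h2
    have e0 : (fun i j k l => δ * unitCurv i j k l : T4 m) = fun i j k l => δ / 3 *
        EH (fun x y => 1 * inner ℝ x y) (fun _ _ => 0) (fun _ _ => 0) (fun _ _ => 0)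
          (e i) (e j) (e k) (e l) := by
      funext i j k l
      rw [← cp_unit e]
      simp only [EH, knSq, skewCurv, unitT]
      ring
    rw [e0]
    exact h2
  have hP : -eL (cx (fun i j k l => ∑ a, c a *
      EH (S a) (B₁ a) (B₂ a) (B₃ a) (e i) (e j) (e k) (e l) : T4 m)) ∈ qcone m 2 :=
    csum_mem (fun a i j k l => EH (S a) (B₁ a) (B₂ a) (B₃ a) (e i) (e j) (e k) (e l)) c
      (fun a => (hq a).1) (fun a => EH_mem (hq a).2 fun i => e i)
  have h1 := gm_q hD hP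
  rw [unit_gm] at h1
  refine h1.trans (le_of_eq ?_)
  congr 1
  funext _ i j k l
  have h2 := cp_unit e i j k l
  simp only [cp, negT, hR, h2]
  ring

theorem field_q {M : Type} [MeasurableSpace M] (μ : MeasureTheory.Measure M)
    (K : CurvField m M) (h : ∀ p, QCone 0 (K.R p)) :
    0 ≤ (-1) ^ m * ∫ p, K.gb p ∂μ := by
  rw [← MeasureTheory.integral_const_mul]
  refine MeasureTheory.integral_nonneg fun p => ?_
  exact (roundGB_nonneg le_rfl).trans (q_bound (K.e p) le_rfl (h p))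

theorem field_q' {M : Type} [MeasurableSpace M] (μ : MeasureTheory.Measure M)
    [MeasureTheory.IsFiniteMeasure μ] (K : CurvField m M) (hi : MeasureTheory.Integrable K.gb μ)
    {δ : ℝ} (hδ : 0 ≤ δ) (h : ∀ p, QCone δ (K.R p)) :
    roundGB m δ * μ.real Set.univ ≤ (-1) ^ m * ∫ p, K.gb p ∂μ := by
  rw [← MeasureTheory.integral_const_mul]
  have h1 : roundGB m δ * μ.real Set.univ = ∫ _, roundGB m δ ∂μ := by
    rw [MeasureTheory.integral_const, smul_eq_mul, mul_comm]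
  rw [h1]
  refine MeasureTheory.integral_mono (MeasureTheory.integrable_const _) (hi.const_mul _) fun p => ?_
  exact q_bound (K.e p) hδ (h p)

/-- one skew form with a norm bound -/
theorem norm_QPos {A : V → V → ℝ} (hA : SkewForm A) {l : ℝ} (hl : 0 ≤ l)
    (hAl : ∀ x y, A x y ≤ l * (‖x‖ * ‖y‖)) :
    QPos (fun x y : V => l * inner ℝ x y) A (fun _ _ => 0) (fun _ _ => 0) where
  symm := (inner_QPos hl).symm
  skew₁ := hA
  skew₂ := zero_skew
  skew₃ := zero_skew
  pos x₀ x₁ x₂ x₃ := by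
    simp only [real_inner_self_eq_norm_sq]
    have h1 : ∀ x y, -(l * (‖x‖ * ‖y‖)) ≤ A x y := by
      intro x y
      have := hAl y x
      rw [hA.anti x y] at this
      linarith [mul_comm ‖x‖ ‖y‖, this, congrArg (fun t => l * t) (mul_comm ‖x‖ ‖y‖)]
    have h2 := h1 x₀ x₁
    have h3 := h1 x₂ x₃
    nlinarith [mul_nonneg hl (sq_nonneg (‖x₀‖ - ‖x₁‖)), mul_nonneg hl (sq_nonneg (‖x₂‖ - ‖x₃‖))]

/-- any number of skew forms -/
theorem many {n : ℕ} {A : Fin n → V → V → ℝ} {l : Fin n → ℝ} {δ : ℝ} (hA : ∀ a, SkewForm (A a))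
    (hl : ∀ a, 0 ≤ l a) (hAl : ∀ a x y, A a x y ≤ l a * (‖x‖ * ‖y‖)) :
    QCone δ (fun x y z w : V => ∑ a, skewCurv (A a) x y z w -
      (δ + 3 * ∑ a, l a ^ 2) * unitT x y z w) := by
  refine ⟨n, fun _ => 1, fun a x y => l a * inner ℝ x y, A, fun _ _ _ => 0, fun _ _ _ => 0,
    fun a => ⟨zero_le_one, norm_QPos (hA a) (hl a) (hAl a)⟩, fun x y z w => ?_⟩
  have h1 : ∀ a, 1 * EH (fun x y : V => l a * inner ℝ x y) (A a) (fun _ _ => 0) (fun _ _ => 0)
      x y z w = (3 * unitT x y z w) * l a ^ 2 - skewCurv (A a) x y z w := by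
    intro a
    simp only [EH, knSq, unitT, skewCurv]
    ring
  simp only [h1]
  rw [Finset.sum_sub_distrib, ← Finset.mul_sum]
  ring

end Pool.Agent.R770.QC
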