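import Pool.Agent.R770.QC.Final

/-!
# Quaternionic structures
-/

set_option autoImplicit false

namespace Pool.Agent.R770.QC

open Pool.Agent.Y195.HF Pool.Agent.W666.GB Pool.Agent.W669.HD Pool.Agent.R770.NS Finset

variable {V : Type} [NormedAddCommGroup V] [InnerProductSpace ℝ V]

/-- the skew form of a skew endomorphism -/
noncomputable def fo (I : V →ₗ[ℝ] V) (x y : V) : ℝ := inner ℝ (I x) y

theorem fo_skew {I : V →ₗ[ℝ] V} (hI : ∀ x y, inner ℝ (I x) y = -(inner ℝ x (I y) : ℝ)) :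
    SkewForm (fo I) :=
  ⟨fun x x' y => by simp only [fo, map_add, inner_add_left],
    fun t x y => by simp only [fo, map_smul, real_inner_smul_left],
    fun x y => by simp only [fo]; rw [hI, real_inner_comm]⟩

/-- The form of a quaternionic structure is positive semidefinite. -/
theorem hyper_QPos {I J K : V →ₗ[ℝ] V} (hI : ∀ x y, inner ℝ (I x) y = -(inner ℝ x (I y) : ℝ))
    (hJ : ∀ x y, inner ℝ (J x) y = -(inner ℝ x (J y) : ℝ))
    (hK : ∀ x y, inner ℝ (K x) y = -(inner ℝ x (K y) : ℝ))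
    (hI2 : ∀ x, I (I x) = -x) (hJ2 : ∀ x, J (J x) = -x) (hIJ : ∀ x, I (J x) = K x) :
    QPos (fun x y : V => 1 * inner ℝ x y) (fo I) (fo J) (fo K) where
  symm := (inner_QPos zero_le_one).symm
  skew₁ := fo_skew hI
  skew₂ := fo_skew hJ
  skew₃ := fo_skew hK
  pos x₀ x₁ x₂ x₃ := by
    have hKx : ∀ x, K x = I (J x) := fun x => (hIJ x).symm
    -- I K = - J, J K = I
    have hIK : ∀ x, I (K x) = - J x := fun x => by rw [hKx, hI2]
    have hJI : ∀ x y, inner ℝ (J (I x)) y = (inner ℝ (- K x) y : ℝ) := by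
      intro x y
      have h1 : inner ℝ (J (I x)) y = (inner ℝ x (I (J y)) : ℝ) := by
        rw [hJ, hI]; ring
      rw [h1, hIJ, inner_neg_left, hK]
      ring
    have hJI' : ∀ x, J (I x) = - K x := fun x => ext_inner_right ℝ (hJI x)
    have hJK : ∀ x, J (K x) = I x := by
      intro x
      rw [hKx, hJI', hKx, hJ2, map_neg, neg_neg]
    have nI : ∀ x, inner ℝ (I x) (I x) = (inner ℝ x x : ℝ) := fun x => by
      rw [hI, hI2, inner_neg_right, neg_neg]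
    have nJ : ∀ x, inner ℝ (J x) (J x) = (inner ℝ x x : ℝ) := fun x => by
      rw [hJ, hJ2, inner_neg_right, neg_neg]
    have nK : ∀ x, inner ℝ (K x) (K x) = (inner ℝ x x : ℝ) := fun x => by
      rw [hKx, nI, nJ]
    have c1 : inner ℝ (I x₁) (J x₂) = -(inner ℝ x₁ (K x₂) : ℝ) := by rw [hI, hIJ]
    have c2 : inner ℝ (I x₁) (K x₃) = (inner ℝ x₁ (J x₃) : ℝ) := by
      rw [hI, hIK, inner_neg_right, neg_neg]
    have c3 : inner ℝ (J x₂) (K x₃) = -(inner ℝ x₂ (I x₃) : ℝ) := by rw [hJ, hJK]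
    have h := real_inner_self_nonneg (x := -x₀ + I x₁ + J x₂ + K x₃)
    have e : inner ℝ (-x₀ + I x₁ + J x₂ + K x₃) (-x₀ + I x₁ + J x₂ + K x₃) =
        (inner ℝ x₀ x₀ + inner ℝ (I x₁) (I x₁) + inner ℝ (J x₂) (J x₂) + inner ℝ (K x₃) (K x₃) +
          2 * (-inner ℝ x₀ (I x₁) - inner ℝ x₀ (J x₂) - inner ℝ x₀ (K x₃) +
            inner ℝ (I x₁) (J x₂) + inner ℝ (I x₁) (K x₃) + inner ℝ (J x₂) (K x₃)) : ℝ) := by
      simp only [inner_add_left, inner_add_right, inner_neg_left, inner_neg_right]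
      rw [real_inner_comm x₀ (I x₁), real_inner_comm x₀ (J x₂), real_inner_comm x₀ (K x₃),
        real_inner_comm (I x₁) (J x₂), real_inner_comm (I x₁) (K x₃),
        real_inner_comm (J x₂) (K x₃)]
      ring
    rw [e, nI, nJ, nK, c1, c2, c3] at h
    have f1 : fo I x₀ x₁ = -(inner ℝ x₀ (I x₁) : ℝ) := hI _ _
    have f2 : fo I x₂ x₃ = -(inner ℝ x₂ (I x₃) : ℝ) := hI _ _
    have f3 : fo J x₀ x₂ = -(inner ℝ x₀ (J x₂) : ℝ) := hJ _ _
    have f4 : fo J x₃ x₁ = (inner ℝ x₁ (J x₃) : ℝ) := by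
      simp only [fo]; rw [real_inner_comm]
    have f5 : fo K x₀ x₃ = -(inner ℝ x₀ (K x₃) : ℝ) := hK _ _
    have f6 : fo K x₁ x₂ = -(inner ℝ x₁ (K x₂) : ℝ) := hK _ _
    rw [f1, f2, f3, f4, f5, f6]
    linarith

theorem hyper {I J K : V →ₗ[ℝ] V} {δ : ℝ}
    (hI : ∀ x y, inner ℝ (I x) y = -(inner ℝ x (I y) : ℝ))
    (hJ : ∀ x y, inner ℝ (J x) y = -(inner ℝ x (J y) : ℝ))
    (hK : ∀ x y, inner ℝ (K x) y = -(inner ℝ x (K y) : ℝ))
    (hI2 : ∀ x, I (I x) = -x) (hJ2 : ∀ x, J (J x) = -x) (hIJ : ∀ x, I (J x) = K x) :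
    QCone δ (fun x y z w : V => skewCurv (fo I) x y z w + skewCurv (fo J) x y z w +
      skewCurv (fo K) x y z w - (δ + 3) * unitT x y z w) := by
  refine ⟨1, fun _ => 1, fun _ x y => 1 * inner ℝ x y, fun _ => fo I, fun _ => fo J, fun _ => fo K,
    fun _ => ⟨zero_le_one, hyper_QPos hI hJ hK hI2 hJ2 hIJ⟩, fun x y z w => ?_⟩
  rw [Fin.sum_univ_one]
  simp only [EH, knSq, unitT]
  ring

end Pool.Agent.R770.QC
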