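import Pool.Agent.R770.QC.Cone

/-!
# The Gauss–Bonnet–Chern integrand on the cone of quaternionic squares
-/

set_option autoImplicit false

namespace Pool.Agent.R770.QC

open Pool.Agent.Y195.HF Pool.Agent.W666.GB Pool.Agent.W669.HD Pool.Agent.R770.NS Finset
open scoped ComplexOrder MatrixOrder Matrix

variable {m : ℕ}

/-- the element of a quaternionic Hermitian matrix `S + i B₁ + j B₂ + k B₃` -/
noncomputable def WQ (S B₁ B₂ B₃ : Mt m) : Zc (I2 m → ℂ) :=
  ff false true S + vv 1 0 0 B₂ - vv 0 1 0 B₃ + vv 0 0 1 B₁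

theorem vv_neg (p₁ p₂ p₃ : ℝ) (A : Mt m) : vv p₁ p₂ p₃ (-A) = - vv p₁ p₂ p₃ A := by
  have h : ∀ s t, ff s t (-A) = - ff s t A := by
    intro s t
    have := ff_smul s t (-1) A
    rwa [neg_one_smul, neg_one_smul] at this
  rw [vv, vv, uu, uu, h, h, h]
  simp only [smul_neg]
  abel

/-- The twelve rotations. -/
theorem twelve (S B₁ B₂ B₃ : Mt m) :
    WQ S B₁ B₂ B₃ ^ 2 + WQ S B₁ (-B₂) (-B₃) ^ 2 + WQ S (-B₁) B₂ (-B₃) ^ 2 +
      WQ S (-B₁) (-B₂) B₃ ^ 2 +
    (WQ S B₂ B₃ B₁ ^ 2 + WQ S B₂ (-B₃) (-B₁) ^ 2 + WQ S (-B₂) B₃ (-B₁) ^ 2 +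
      WQ S (-B₂) (-B₃) B₁ ^ 2) +
    (WQ S B₃ B₁ B₂ ^ 2 + WQ S B₃ (-B₁) (-B₂) ^ 2 + WQ S (-B₃) B₁ (-B₂) ^ 2 +
      WQ S (-B₃) (-B₁) B₂ ^ 2) =
    12 * ff false true S ^ 2 + 4 * (qi B₁ + qi B₂ + qi B₃) := by
  simp only [WQ, vv_neg]
  rw [← vv_sq B₁, ← vv_sq B₂, ← vv_sq B₃]
  ring

section forms

variable {V : Type} [NormedAddCommGroup V] [InnerProductSpace ℝ V]

/-- `S + i B₁ + j B₂ + k B₃` is a positive semidefinite quaternionic Hermitian form on `V ⊗ ℍ`. -/
structure QPos (S B₁ B₂ B₃ : V → V → ℝ) : Prop where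
  symm : SymForm S
  skew₁ : SkewForm B₁
  skew₂ : SkewForm B₂
  skew₃ : SkewForm B₃
  pos : ∀ x₀ x₁ x₂ x₃ : V, 0 ≤ S x₀ x₀ + S x₁ x₁ + S x₂ x₂ + S x₃ x₃ +
    2 * (B₁ x₀ x₁ + B₁ x₂ x₃ + (B₂ x₀ x₂ + B₂ x₃ x₁) + (B₃ x₀ x₃ + B₃ x₁ x₂))

theorem skew_neg {A : V → V → ℝ} (hA : SkewForm A) : SkewForm (fun x y => - A x y) :=
  ⟨fun x x' y => by rw [hA.add]; ring, fun t x y => by rw [hA.smul]; ring,
    fun x y => by rw [hA.anti x y]⟩

theorem skew_neg_right {A : V → V → ℝ} (hA : SkewForm A) (x y : V) : A x (-y) = - A x y := by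
  rw [hA.anti (-y) x, show -y = (-1 : ℝ) • y by rw [neg_one_smul], hA.smul, hA.anti x y]
  ring

theorem skew_neg_left {A : V → V → ℝ} (hA : SkewForm A) (x y : V) : A (-x) y = - A x y := by
  rw [show -x = (-1 : ℝ) • x by rw [neg_one_smul], hA.smul]
  ring

theorem symm_neg {S : V → V → ℝ} (hS : SymForm S) (x : V) : S (-x) (-x) = S x x := by
  rw [show -x = (-1 : ℝ) • x by rw [neg_one_smul], hS.smul, ← hS.symm x ((-1 : ℝ) • x), hS.smul]
  ring

theorem QPos.cyc {S B₁ B₂ B₃ : V → V → ℝ} (h : QPos S B₁ B₂ B₃) : QPos S B₂ B₃ B₁ where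
  symm := h.symm
  skew₁ := h.skew₂
  skew₂ := h.skew₃
  skew₃ := h.skew₁
  pos x₀ x₁ x₂ x₃ := by
    have := h.pos x₀ x₃ x₁ x₂
    linarith

theorem QPos.flip {S B₁ B₂ B₃ : V → V → ℝ} (h : QPos S B₁ B₂ B₃) :
    QPos S B₁ (fun x y => - B₂ x y) (fun x y => - B₃ x y) where
  symm := h.symm
  skew₁ := h.skew₁
  skew₂ := skew_neg h.skew₂
  skew₃ := skew_neg h.skew₃
  pos x₀ x₁ x₂ x₃ := by
    have := h.pos x₀ x₁ (-x₂) (-x₃)
    rw [symm_neg h.symm, symm_neg h.symm, skew_neg_left h.skew₁, skew_neg_right h.skew₁,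
      skew_neg_right h.skew₂, skew_neg_left h.skew₂, skew_neg_right h.skew₃,
      skew_neg_right h.skew₃] at this
    linarith

/-- components of a form -/
noncomputable def co (e : Fin m × Bool → V) (B : V → V → ℝ) : Mt m := cm fun i j => B (e i) (e j)

theorem co_neg (e : Fin m × Bool → V) (B : V → V → ℝ) : co e (fun x y => - B x y) = - co e B := by
  funext i j
  simp only [co, cm, Pi.neg_apply, Complex.ofReal_neg]

/-- the complex matrix of the quaternionic form -/
noncomputable def QMat (e : Fin m × Bool → V) (S B₁ B₂ B₃ : V → V → ℝ) : Matrix (I2 m) (I2 m) ℂ :=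
  Matrix.of fun p q =>
    if p.2 = true then
      (if q.2 = true then (co e S p.1 q.1 - Complex.I * co e B₁ p.1 q.1) / 2
        else (co e B₂ p.1 q.1 + Complex.I * co e B₃ p.1 q.1) / 2)
    else
      (if q.2 = true then (-co e B₂ p.1 q.1 + Complex.I * co e B₃ p.1 q.1) / 2
        else (co e S p.1 q.1 + Complex.I * co e B₁ p.1 q.1) / 2)

theorem QMat_psd {S B₁ B₂ B₃ : V → V → ℝ} (h : QPos S B₁ B₂ B₃) (e : Fin m × Bool → V) :
    (QMat e S B₁ B₂ B₃).PosSemidef := by
  have hherm : (QMat e S B₁ B₂ B₃).IsHermitian := by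
    ext p q
    obtain ⟨x, s⟩ := p
    obtain ⟨y, t⟩ := q
    rw [Matrix.conjTranspose_apply]
    cases s <;> cases t <;>
      simp only [QMat, Matrix.of_apply, co, cm, if_true, if_false, Bool.false_eq_true,
        h.skew₁.anti (e x) (e y), h.skew₂.anti (e x) (e y), h.skew₃.anti (e x) (e y),
        h.symm.symm (e x) (e y), Complex.star_def, map_div₀, map_add, map_sub, map_mul, map_neg,
        Complex.conj_I, Complex.conj_ofReal, map_ofNat] <;> push_cast <;> ring
  refine Matrix.PosSemidef.of_dotProduct_mulVec_nonneg hherm fun z => ?_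
  have him := hherm.im_star_dotProduct_mulVec_self z
  rw [Complex.nonneg_iff]
  refine ⟨?_, him.symm⟩
  set x₀ : V := ∑ i, (-(z (i, false)).re) • e i with hx0
  set x₁ : V := ∑ i, (z (i, false)).im • e i with hx1
  set x₂ : V := ∑ i, (z (i, true)).re • e i with hx2
  set x₃ : V := ∑ i, (z (i, true)).im • e i with hx3
  have hre : (star z ⬝ᵥ (QMat e S B₁ B₂ B₃ *ᵥ z)).re = (1 / 2) *
      (S x₀ x₀ + S x₁ x₁ + S x₂ x₂ + S x₃ x₃ +
        (B₁ x₀ x₁ - B₁ x₁ x₀ + (B₁ x₂ x₃ - B₁ x₃ x₂) +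
          (B₂ x₀ x₂ - B₂ x₂ x₀ + (B₂ x₃ x₁ - B₂ x₁ x₃)) +
          (B₃ x₀ x₃ - B₃ x₃ x₀ + (B₃ x₁ x₂ - B₃ x₂ x₁)))) := by
    rw [hx0, hx1, hx2, hx3, h.symm.expand, h.symm.expand, h.symm.expand, h.symm.expand,
      skew_expand h.skew₁, skew_expand h.skew₁, skew_expand h.skew₁, skew_expand h.skew₁,
      skew_expand h.skew₂, skew_expand h.skew₂, skew_expand h.skew₂, skew_expand h.skew₂,
      skew_expand h.skew₃, skew_expand h.skew₃, skew_expand h.skew₃, skew_expand h.skew₃]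
    simp only [← Finset.sum_add_distrib, ← Finset.sum_sub_distrib]
    rw [dotProduct, Fintype.sum_prod_type, Complex.re_sum, Finset.mul_sum]
    refine Finset.sum_congr rfl fun i _ => ?_
    have split : ∀ f : I2 m → ℂ, ∑ q, f q = ∑ j, (f (j, true) + f (j, false)) := by
      intro f
      rw [Fintype.sum_prod_type]
      exact Finset.sum_congr rfl fun j _ => by rw [Fintype.sum_bool]
    rw [Fintype.sum_bool, Matrix.mulVec, Matrix.mulVec, dotProduct, dotProduct,
      split, split, Finset.mul_sum, Finset.mul_sum,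
      ← Finset.sum_add_distrib, Complex.re_sum, Finset.mul_sum]
    refine Finset.sum_congr rfl fun j _ => ?_
    simp only [QMat, Matrix.of_apply, if_true, if_false, Bool.false_eq_true, co, cm]
    have e1 : (((S (e i) (e j) : ℝ) : ℂ) - Complex.I * (B₁ (e i) (e j) : ℝ)) / 2 =
        ((S (e i) (e j) / 2 : ℝ) : ℂ) - Complex.I * ((B₁ (e i) (e j) / 2 : ℝ) : ℂ) := by
      push_cast; ring
    have e2 : (((S (e i) (e j) : ℝ) : ℂ) + Complex.I * (B₁ (e i) (e j) : ℝ)) / 2 =
        ((S (e i) (e j) / 2 : ℝ) : ℂ) + Complex.I * ((B₁ (e i) (e j) / 2 : ℝ) : ℂ) := by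
      push_cast; ring
    have e3 : (((B₂ (e i) (e j) : ℝ) : ℂ) + Complex.I * (B₃ (e i) (e j) : ℝ)) / 2 =
        ((B₂ (e i) (e j) / 2 : ℝ) : ℂ) + Complex.I * ((B₃ (e i) (e j) / 2 : ℝ) : ℂ) := by
      push_cast; ring
    have e4 : (-((B₂ (e i) (e j) : ℝ) : ℂ) + Complex.I * (B₃ (e i) (e j) : ℝ)) / 2 =
        -((B₂ (e i) (e j) / 2 : ℝ) : ℂ) + Complex.I * ((B₃ (e i) (e j) / 2 : ℝ) : ℂ) := by
      push_cast; ring
    rw [e1, e2, e3, e4]
    simp only [Pi.star_apply, Complex.star_def, Complex.mul_re, Complex.mul_im, Complex.add_re,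
      Complex.add_im, Complex.sub_re, Complex.sub_im, Complex.neg_re, Complex.neg_im,
      Complex.I_re, Complex.I_im, Complex.ofReal_re, Complex.ofReal_im,
      Complex.conj_re, Complex.conj_im]
    ring
  rw [hre]
  have h1 := h.pos x₀ x₁ x₂ x₃
  rw [h.skew₁.anti x₀ x₁, h.skew₁.anti x₂ x₃, h.skew₂.anti x₀ x₂, h.skew₂.anti x₃ x₁,
    h.skew₃.anti x₀ x₃, h.skew₃.anti x₁ x₂]
  linarith

theorem vec_split (z : I2 m → ℂ) :
    z = vec false (fun x => z (x, false)) + vec true (fun x => z (x, true)) := by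
  funext p
  obtain ⟨x, s⟩ := p
  rw [Pi.add_apply, vec, vec, Finset.sum_apply, Finset.sum_apply, Finset.sum_eq_single x,
    Finset.sum_eq_single x]
  · cases s <;> simp [th]
  · intro y _ hy
    simp [th, Ne.symm hy]
  · intro h
    exact absurd (mem_univ x) h
  · intro y _ hy
    simp [th, Ne.symm hy]
  · intro h
    exact absurd (mem_univ x) h

theorem ql_expand (z : I2 m → ℂ) : ql z =
    ff false false (fun x y => z (x, false) * -(starRingEnd ℂ) (z (y, true))) +
    ff false true (fun x y => z (x, false) * (starRingEnd ℂ) (z (y, false))) +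
    ff true false (fun x y => z (x, true) * -(starRingEnd ℂ) (z (y, true))) +
    ff true true (fun x y => z (x, true) * (starRingEnd ℂ) (z (y, false))) := by
  rw [ff_vec false false (fun x => z (x, false)) (fun y => -(starRingEnd ℂ) (z (y, true))),
    ff_vec false true (fun x => z (x, false)) (fun y => (starRingEnd ℂ) (z (y, false))),
    ff_vec true false (fun x => z (x, true)) (fun y => -(starRingEnd ℂ) (z (y, true))),
    ff_vec true true (fun x => z (x, true)) (fun y => (starRingEnd ℂ) (z (y, false)))]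
  have h1 : sg z = vec false (fun y => -(starRingEnd ℂ) (z (y, true))) +
      vec true (fun y => (starRingEnd ℂ) (z (y, false))) := by
    have := vec_split (sg z)
    simpa [sg] using this
  have h2 : ql z = bv (vec false (fun x => z (x, false)) + vec true (fun x => z (x, true)))
      (vec false (fun y => -(starRingEnd ℂ) (z (y, true))) +
      vec true (fun y => (starRingEnd ℂ) (z (y, false)))) := by
    rw [← h1, ← vec_split z]
    rfl
  rw [h2, bv_add_left, bv_add_right, bv_add_right]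
  abel

theorem ff_tf_swap (X : Mt m) : ff true false X = - ff false true (fun x y => X y x) := by
  unfold ff
  rw [Finset.sum_comm, ← Finset.sum_neg_distrib]
  refine Finset.sum_congr rfl fun i _ => ?_
  rw [← Finset.sum_neg_distrib]
  refine Finset.sum_congr rfl fun j _ => ?_
  rw [bv_swap, smul_neg]

theorem WQ_mem {S B₁ B₂ B₃ : V → V → ℝ} (h : QPos S B₁ B₂ B₃) (e : Fin m × Bool → V) :
    WQ (co e S) (co e B₁) (co e B₂) (co e B₃) ∈ qcone m 1 := by
  obtain ⟨B, hB⟩ := CStarAlgebra.nonneg_iff_eq_star_mul_self.mp (QMat_psd h e).nonneg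
  have hM : ∀ p q, QMat e S B₁ B₂ B₃ p q =
      ∑ a, (starRingEnd ℂ) (B a p) * (starRingEnd ℂ) ((starRingEnd ℂ) (B a q)) := by
    intro p q
    rw [hB, Matrix.mul_apply]
    refine Finset.sum_congr rfl fun a _ => ?_
    rw [Matrix.star_apply, Complex.conj_conj]
    rfl
  have h1 : WQ (co e S) (co e B₁) (co e B₂) (co e B₃) =
      ∑ a, ql (fun p => (starRingEnd ℂ) (B a p)) := by
    simp only [ql_expand, Finset.sum_add_distrib]
    rw [← ff_sum (κ := I2 m) false false (fun a x y => (starRingEnd ℂ) (B a (x, false)) *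
        -(starRingEnd ℂ) ((starRingEnd ℂ) (B a (y, true)))),
      ← ff_sum (κ := I2 m) false true (fun a x y => (starRingEnd ℂ) (B a (x, false)) *
        (starRingEnd ℂ) ((starRingEnd ℂ) (B a (y, false)))),
      ← ff_sum (κ := I2 m) true false (fun a x y => (starRingEnd ℂ) (B a (x, true)) *
        -(starRingEnd ℂ) ((starRingEnd ℂ) (B a (y, true)))),
      ← ff_sum (κ := I2 m) true true (fun a x y => (starRingEnd ℂ) (B a (x, true)) *
        (starRingEnd ℂ) ((starRingEnd ℂ) (B a (y, false))))]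
    simp only [mul_neg, Finset.sum_neg_distrib, ← hM]
    rw [ff_tf_swap]
    have a1 : (fun x y => -QMat e S B₁ B₂ B₃ (x, false) (y, true) : Mt m) =
        (1 / 2 : ℂ) • co e B₂ + (-(Complex.I / 2)) • co e B₃ := by
      funext x y
      simp only [QMat, Matrix.of_apply, if_true, if_false, Bool.false_eq_true, Pi.add_apply,
        Pi.smul_apply, smul_eq_mul]
      ring
    have a2 : (fun x y => QMat e S B₁ B₂ B₃ (x, false) (y, false) : Mt m) =
        (1 / 2 : ℂ) • co e S + (Complex.I / 2) • co e B₁ := by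
      funext x y
      simp only [QMat, Matrix.of_apply, if_false, Bool.false_eq_true, Pi.add_apply,
        Pi.smul_apply, smul_eq_mul]
      ring
    have a3 : (fun x y => -QMat e S B₁ B₂ B₃ (y, true) (x, true) : Mt m) =
        (-(1 / 2) : ℂ) • co e S + (-(Complex.I / 2)) • co e B₁ := by
      funext x y
      simp only [QMat, Matrix.of_apply, if_true, Pi.add_apply, Pi.smul_apply, smul_eq_mul, co, cm,
        h.symm.symm (e x) (e y), h.skew₁.anti (e x) (e y)]
      push_cast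
      ring
    have a4 : (fun x y => QMat e S B₁ B₂ B₃ (x, true) (y, false) : Mt m) =
        (1 / 2 : ℂ) • co e B₂ + (Complex.I / 2) • co e B₃ := by
      funext x y
      simp only [QMat, Matrix.of_apply, if_true, if_false, Bool.false_eq_true, Pi.add_apply,
        Pi.smul_apply, smul_eq_mul]
      ring
    rw [a1, a2, a3, a4]
    simp only [ff_add, ff_smul, WQ, vv, uu, Complex.ofReal_one, Complex.ofReal_zero]
    module
  rw [h1]
  exact AddSubmonoid.sum_mem _ fun a _ => qcone_line _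

end forms

end Pool.Agent.R770.QC
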