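import Pool.Agent.R770.QC.Hyp

/-!
# The pairing with algebraic curvature tensors
-/

set_option autoImplicit false

namespace Pool.Agent.R770.QC

open Pool.Agent.Y195.HF Pool.Agent.W666.GB Pool.Agent.W669.HD Pool.Agent.R770.NS Finset

section comp

variable {I : Type} [Fintype I]

/-- exchange of the second and third index -/
def e23 : I × I × I × I ≃ I × I × I × I where
  toFun p := (p.1, p.2.2.1, p.2.1, p.2.2.2)
  invFun p := (p.1, p.2.2.1, p.2.1, p.2.2.2)
  left_inv _ := rfl
  right_inv _ := rfl

/-- exchange of the first two indices -/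
def e12 : I × I × I × I ≃ I × I × I × I where
  toFun p := (p.2.1, p.1, p.2.2.1, p.2.2.2)
  invFun p := (p.2.1, p.1, p.2.2.1, p.2.2.2)
  left_inv _ := rfl
  right_inv _ := rfl

/-- exchange of the last two indices -/
def e34 : I × I × I × I ≃ I × I × I × I where
  toFun p := (p.1, p.2.1, p.2.2.2, p.2.2.1)
  invFun p := (p.1, p.2.1, p.2.2.2, p.2.2.1)
  left_inv _ := rfl
  right_inv _ := rfl

/-- the pairing of two component tensors -/
noncomputable def pr (Q T : I → I → I → I → ℝ) : ℝ :=
  ∑ p : I × I × I × I, Q p.1 p.2.1 p.2.2.1 p.2.2.2 * T p.1 p.2.1 p.2.2.1 p.2.2.2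

/-- curvature symmetries in components -/
structure CC (Q : I → I → I → I → ℝ) : Prop where
  anti : ∀ i j k l, Q j i k l = - Q i j k l
  pair : ∀ i j k l, Q k l i j = Q i j k l
  bianchi : ∀ i j k l, Q i j k l + Q j k i l + Q k i j l = 0

theorem CC.anti' {Q : I → I → I → I → ℝ} (h : CC Q) (i j k l : I) : Q i j l k = - Q i j k l := by
  rw [← h.pair i j l k, h.anti k l i j, h.pair i j k l]

theorem pr_add (Q T U : I → I → I → I → ℝ) :
    pr Q (fun i j k l => T i j k l + U i j k l) = pr Q T + pr Q U := by
  unfold pr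
  rw [← Finset.sum_add_distrib]
  exact Finset.sum_congr rfl fun p _ => by ring

theorem pr_smul (Q T : I → I → I → I → ℝ) (c : ℝ) :
    pr Q (fun i j k l => c * T i j k l) = c * pr Q T := by
  unfold pr
  rw [Finset.mul_sum]
  exact Finset.sum_congr rfl fun p _ => by ring

/-- pairing with the square of a symmetric form -/
theorem pr_kn {Q : I → I → I → I → ℝ} (hQ : CC Q) (S : I → I → ℝ) :
    pr Q (fun i j k l => S i k * S j l - S i l * S j k) =
      2 * pr Q (fun i j k l => S i k * S j l) := by
  have h1 : pr Q (fun i j k l => S i l * S j k) = - pr Q (fun i j k l => S i k * S j l) := by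
    unfold pr
    rw [← Equiv.sum_comp e34, ← Finset.sum_neg_distrib]
    refine Finset.sum_congr rfl fun p _ => ?_
    simp only [e34, Equiv.coe_fn_mk]
    rw [hQ.anti']
    ring
  have h2 : (fun i j k l => S i k * S j l - S i l * S j k) =
      fun i j k l => S i k * S j l + (-1) * (S i l * S j k) := by
    funext i j k l; ring
  rw [h2, pr_add Q (fun i j k l => S i k * S j l), pr_smul Q (fun i j k l => S i l * S j k), h1]
  ring

/-- pairing with the tensor of a skew form -/
theorem pr_sk {Q : I → I → I → I → ℝ} (hQ : CC Q) {A : I → I → ℝ} (hA : ∀ i j, A j i = - A i j) :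
    pr Q (fun i j k l => 2 * (A i j * A k l) + A i k * A j l - A i l * A j k) =
      3 * pr Q (fun i j k l => A i j * A k l) := by
  have h1 : pr Q (fun i j k l => A i l * A j k) = - pr Q (fun i j k l => A i k * A j l) := by
    unfold pr
    rw [← Equiv.sum_comp e34, ← Finset.sum_neg_distrib]
    refine Finset.sum_congr rfl fun p _ => ?_
    simp only [e34, Equiv.coe_fn_mk]
    rw [hQ.anti']
    ring
  -- G = ∑ Q_{ikjl} A_ij A_kl
  have g1 : pr Q (fun i j k l => A i k * A j l) = pr (fun i j k l => Q i k j l)
      (fun i j k l => A i j * A k l) := by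
    unfold pr
    rw [← Equiv.sum_comp e23]
    refine Finset.sum_congr rfl fun p _ => ?_
    simp only [e23, Equiv.coe_fn_mk]
  have g2 : pr (fun i j k l => Q k j i l) (fun i j k l => A i j * A k l) =
      pr (fun i j k l => Q i k j l) (fun i j k l => A i j * A k l) := by
    unfold pr
    rw [← Equiv.sum_comp e12]
    refine Finset.sum_congr rfl fun p _ => ?_
    simp only [e12, Equiv.coe_fn_mk]
    rw [hQ.anti p.1 p.2.2.1, hA p.1 p.2.1]
    ring
  have g3 : pr (fun i j k l => Q i k j l) (fun i j k l => A i j * A k l) +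
      pr (fun i j k l => Q k j i l) (fun i j k l => A i j * A k l) =
        pr Q (fun i j k l => A i j * A k l) := by
    unfold pr
    rw [← Finset.sum_add_distrib]
    refine Finset.sum_congr rfl fun p _ => ?_
    have hb := hQ.bianchi p.1 p.2.2.1 p.2.1 p.2.2.2
    have ha := hQ.anti p.1 p.2.1 p.2.2.1 p.2.2.2
    rw [ha] at hb
    linear_combination (A p.1 p.2.1 * A p.2.2.1 p.2.2.2) * hb
  have h2 : (fun i j k l => 2 * (A i j * A k l) + A i k * A j l - A i l * A j k) =
      fun i j k l => 2 * (A i j * A k l) + (A i k * A j l + (-1) * (A i l * A j k)) := by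
    funext i j k l; ring
  rw [h2, pr_add Q (fun i j k l => 2 * (A i j * A k l)),
    pr_add Q (fun i j k l => A i k * A j l), pr_smul Q (fun i j k l => A i j * A k l),
    pr_smul Q (fun i j k l => A i l * A j k), h1]
  linarith

end comp

end Pool.Agent.R770.QC
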