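import Pool.Agent.R770.QC.Dual
import Mathlib.Analysis.Convex.Cone.InnerDual
import Mathlib.Analysis.InnerProductSpace.PiL2

/-!
# Separation
-/

set_option autoImplicit false

namespace Pool.Agent.R770.QC

open Pool.Agent.Y195.HF Pool.Agent.W666.GB Pool.Agent.W669.HD Pool.Agent.R770.NS Finset
open scoped NNReal

variable {m : ℕ}

section forms

variable {V : Type} [NormedAddCommGroup V] [InnerProductSpace ℝ V]

/-- the form `∑ ⟨v, ·⟩²` -/
noncomputable def sf {κ : Type} [Fintype κ] (v : κ → V) (x y : V) : ℝ :=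
  ∑ s, inner ℝ (v s) x * inner ℝ (v s) y

/-- the form `∑ u ∧ w` -/
noncomputable def bf {κ : Type} [Fintype κ] (u w : κ → V) (x y : V) : ℝ :=
  ∑ c, (inner ℝ (u c) x * inner ℝ (w c) y - inner ℝ (w c) x * inner ℝ (u c) y)

theorem sf_symm {κ : Type} [Fintype κ] (v : κ → V) : SymForm (sf v) where
  add x x' y := by
    unfold sf
    rw [← Finset.sum_add_distrib]
    exact Finset.sum_congr rfl fun s _ => by rw [inner_add_right]; ring
  smul t x y := by
    unfold sf
    rw [Finset.mul_sum]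
    exact Finset.sum_congr rfl fun s _ => by rw [real_inner_smul_right]; ring
  symm x y := by
    unfold sf
    exact Finset.sum_congr rfl fun s _ => by ring

theorem bf_skew {κ : Type} [Fintype κ] (u w : κ → V) : SkewForm (bf u w) where
  add x x' y := by
    unfold bf
    rw [← Finset.sum_add_distrib]
    exact Finset.sum_congr rfl fun s _ => by rw [inner_add_right, inner_add_right]; ring
  smul t x y := by
    unfold bf
    rw [Finset.mul_sum]
    exact Finset.sum_congr rfl fun s _ => by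
      rw [real_inner_smul_right, real_inner_smul_right]; ring
  anti x y := by
    unfold bf
    rw [← Finset.sum_neg_distrib]
    exact Finset.sum_congr rfl fun s _ => by ring

/-- first vectors of the pairs -/
def U1 {X : Type*} (p : Fin 4 → X) : Fin 2 → X := ![p 0, p 2]
/-- second vectors of the pairs -/
def W1 {X : Type*} (p : Fin 4 → X) : Fin 2 → X := ![p 1, p 3]
/-- first vectors of the pairs -/
def U2 {X : Type*} (p : Fin 4 → X) : Fin 2 → X := ![p 0, p 3]
/-- second vectors of the pairs -/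
def W2 {X : Type*} (p : Fin 4 → X) : Fin 2 → X := ![p 2, p 1]
/-- first vectors of the pairs -/
def U3 {X : Type*} (p : Fin 4 → X) : Fin 2 → X := ![p 0, p 1]
/-- second vectors of the pairs -/
def W3 {X : Type*} (p : Fin 4 → X) : Fin 2 → X := ![p 3, p 2]

/-- The quaternionic Hermitian form of rank one. -/
theorem one_QPos (p : Fin 4 → V) :
    QPos (sf p) (bf (U1 p) (W1 p)) (bf (U2 p) (W2 p)) (bf (U3 p) (W3 p)) where
  symm := sf_symm _
  skew₁ := bf_skew _ _
  skew₂ := bf_skew _ _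
  skew₃ := bf_skew _ _
  pos x₀ x₁ x₂ x₃ := by
    simp only [sf, bf, U1, W1, U2, W2, U3, W3, Fin.sum_univ_four, Fin.sum_univ_two,
      Matrix.cons_val_zero, Matrix.cons_val_one]
    generalize inner ℝ (p 0) x₀ = a00
    generalize inner ℝ (p 0) x₁ = a01
    generalize inner ℝ (p 0) x₂ = a02
    generalize inner ℝ (p 0) x₃ = a03
    generalize inner ℝ (p 1) x₀ = a10
    generalize inner ℝ (p 1) x₁ = a11
    generalize inner ℝ (p 1) x₂ = a12
    generalize inner ℝ (p 1) x₃ = a13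
    generalize inner ℝ (p 2) x₀ = a20
    generalize inner ℝ (p 2) x₁ = a21
    generalize inner ℝ (p 2) x₂ = a22
    generalize inner ℝ (p 2) x₃ = a23
    generalize inner ℝ (p 3) x₀ = a30
    generalize inner ℝ (p 3) x₁ = a31
    generalize inner ℝ (p 3) x₂ = a32
    generalize inner ℝ (p 3) x₃ = a33
    have h : 0 ≤ (a00 + a11 + a22 + a33) ^ 2 + (a01 - a10 - a23 + a32) ^ 2 +
      (a02 - a20 - a31 + a13) ^ 2 + (a03 - a30 - a12 + a21) ^ 2 := by positivity
    refine h.trans (le_of_eq ?_)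
    ring

theorem QPos.add {S B₁ B₂ B₃ S' B₁' B₂' B₃' : V → V → ℝ} (h : QPos S B₁ B₂ B₃)
    (h' : QPos S' B₁' B₂' B₃') :
    QPos (fun x y => S x y + S' x y) (fun x y => B₁ x y + B₁' x y) (fun x y => B₂ x y + B₂' x y)
      (fun x y => B₃ x y + B₃' x y) where
  symm := ⟨fun x x' y => by rw [h.symm.add, h'.symm.add]; ring,
    fun t x y => by rw [h.symm.smul, h'.symm.smul]; ring,
    fun x y => by rw [h.symm.symm x y, h'.symm.symm x y]⟩
  skew₁ := ⟨fun x x' y => by rw [h.skew₁.add, h'.skew₁.add]; ring,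
    fun t x y => by rw [h.skew₁.smul, h'.skew₁.smul]; ring,
    fun x y => by rw [h.skew₁.anti x y, h'.skew₁.anti x y]; ring⟩
  skew₂ := ⟨fun x x' y => by rw [h.skew₂.add, h'.skew₂.add]; ring,
    fun t x y => by rw [h.skew₂.smul, h'.skew₂.smul]; ring,
    fun x y => by rw [h.skew₂.anti x y, h'.skew₂.anti x y]; ring⟩
  skew₃ := ⟨fun x x' y => by rw [h.skew₃.add, h'.skew₃.add]; ring,
    fun t x y => by rw [h.skew₃.smul, h'.skew₃.smul]; ring,
    fun x y => by rw [h.skew₃.anti x y, h'.skew₃.anti x y]; ring⟩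
  pos x₀ x₁ x₂ x₃ := by
    have a := h.pos x₀ x₁ x₂ x₃
    have b := h'.pos x₀ x₁ x₂ x₃
    linarith

theorem two_QPos (p r : Fin 4 → V) :
    QPos (sf (Sum.elim p r)) (bf (Sum.elim (U1 p) (U1 r)) (Sum.elim (W1 p) (W1 r)))
      (bf (Sum.elim (U2 p) (U2 r)) (Sum.elim (W2 p) (W2 r)))
      (bf (Sum.elim (U3 p) (U3 r)) (Sum.elim (W3 p) (W3 r))) := by
  have h := (one_QPos p).add (one_QPos r)
  have e1 : ∀ p r : Fin 4 → V, sf (Sum.elim p r) = fun x y => sf p x y + sf r x y := by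
    intro p r
    funext x y
    simp only [sf, Fintype.sum_sum_type, Sum.elim_inl, Sum.elim_inr]
  have e2 : ∀ u w u' w' : Fin 2 → V, bf (Sum.elim u u') (Sum.elim w w') =
      fun x y => bf u w x y + bf u' w' x y := by
    intro u w u' w'
    funext x y
    simp only [bf, Fintype.sum_sum_type, Sum.elim_inl, Sum.elim_inr]
  rw [e1, e2, e2, e2]
  exact h

/-- components of a vector -/
noncomputable def cv (e : Fin m × Bool → V) (x : V) (i : Fin m × Bool) : ℝ := inner ℝ x (e i)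

theorem pr_EH {Q : T4 m} (hQ : CC Q) (e : Fin m × Bool → V) (p r : Fin 4 → V) :
    pr Q (fun i j k l => EH (sf (Sum.elim p r))
      (bf (Sum.elim (U1 p) (U1 r)) (Sum.elim (W1 p) (W1 r)))
      (bf (Sum.elim (U2 p) (U2 r)) (Sum.elim (W2 p) (W2 r)))
      (bf (Sum.elim (U3 p) (U3 r)) (Sum.elim (W3 p) (W3 r))) (e i) (e j) (e k) (e l)) =
    12 * QSC (mo Q) (fun s => cv e (p s)) (fun s => cv e (r s)) := by
  have key : ∀ {κ κ' : Type} [Fintype κ] [Fintype κ'] (v : κ → V) (u₁ w₁ u₂ w₂ u₃ w₃ : κ' → V),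
      pr Q (fun i j k l => EH (sf v) (bf u₁ w₁) (bf u₂ w₂) (bf u₃ w₃)
        (e i) (e j) (e k) (e l)) =
      6 * ∑ s, ∑ t, mo Q (cv e (v s)) (cv e (v t)) (cv e (v s)) (cv e (v t)) -
      12 * (∑ c, ∑ d, mo Q (cv e (u₁ c)) (cv e (w₁ c)) (cv e (u₁ d)) (cv e (w₁ d)) +
        ∑ c, ∑ d, mo Q (cv e (u₂ c)) (cv e (w₂ c)) (cv e (u₂ d)) (cv e (w₂ d)) +
        ∑ c, ∑ d, mo Q (cv e (u₃ c)) (cv e (w₃ c)) (cv e (u₃ d)) (cv e (w₃ d))) := by
    intro κ κ' _ _ v u₁ w₁ u₂ w₂ u₃ w₃
    have hB : ∀ u w : κ' → V, pr Q (fun i j k l => skewCurv (bf u w) (e i) (e j) (e k) (e l)) =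
        12 * ∑ c, ∑ d, mo Q (cv e (u c)) (cv e (w c)) (cv e (u d)) (cv e (w d)) := by
      intro u w
      have h1 := pr_sk hQ (A := fun i j => bf u w (e i) (e j)) fun i j => (bf_skew u w).anti _ _
      have h2 := pr_BB hQ (fun c => cv e (u c)) (fun c => cv e (w c))
      have h3 : (fun i j k l => wd (fun c => cv e (u c)) (fun c => cv e (w c)) i j *
          wd (fun c => cv e (u c)) (fun c => cv e (w c)) k l) =
          fun i j k l => bf u w (e i) (e j) * bf u w (e k) (e l) := rfl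
      rw [h3] at h2
      rw [h2] at h1
      show pr Q (fun i j k l => 2 * (bf u w (e i) (e j) * bf u w (e k) (e l)) +
        bf u w (e i) (e k) * bf u w (e j) (e l) - bf u w (e i) (e l) * bf u w (e j) (e k)) = _
      rw [h1]
      ring
    have hS : pr Q (fun i j k l => knSq (sf v) (e i) (e j) (e k) (e l)) =
        2 * ∑ s, ∑ t, mo Q (cv e (v s)) (cv e (v t)) (cv e (v s)) (cv e (v t)) := by
      have h1 := pr_kn hQ (fun i j => sf v (e i) (e j))
      have h2 := pr_SS Q (fun s => cv e (v s))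
      have h3 : (fun i j k l => (∑ s, cv e (v s) i * cv e (v s) k) *
          ∑ s, cv e (v s) j * cv e (v s) l) =
          fun i j k l => sf v (e i) (e k) * sf v (e j) (e l) := rfl
      rw [h3] at h2
      rw [h2] at h1
      exact h1
    have h : (fun i j k l => EH (sf v) (bf u₁ w₁) (bf u₂ w₂) (bf u₃ w₃)
        (e i) (e j) (e k) (e l)) = fun i j k l => 3 * knSq (sf v) (e i) (e j) (e k) (e l) +
          ((-1) * skewCurv (bf u₁ w₁) (e i) (e j) (e k) (e l) +
          ((-1) * skewCurv (bf u₂ w₂) (e i) (e j) (e k) (e l) +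
          (-1) * skewCurv (bf u₃ w₃) (e i) (e j) (e k) (e l))) := by
      funext i j k l
      simp only [EH]
      ring
    rw [h, pr_add Q (fun i j k l => 3 * knSq (sf v) (e i) (e j) (e k) (e l)),
      pr_add Q (fun i j k l => (-1) * skewCurv (bf u₁ w₁) (e i) (e j) (e k) (e l)),
      pr_add Q (fun i j k l => (-1) * skewCurv (bf u₂ w₂) (e i) (e j) (e k) (e l)),
      pr_smul Q (fun i j k l => knSq (sf v) (e i) (e j) (e k) (e l)),
      pr_smul Q (fun i j k l => skewCurv (bf u₁ w₁) (e i) (e j) (e k) (e l)),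
      pr_smul Q (fun i j k l => skewCurv (bf u₂ w₂) (e i) (e j) (e k) (e l)),
      pr_smul Q (fun i j k l => skewCurv (bf u₃ w₃) (e i) (e j) (e k) (e l)), hB, hB, hB, hS]
    ring
  rw [key]
  have hp := pp_self (mo_anti hQ) (mo_pair hQ) (mo_bi hQ) (fun s => cv e (p s))
  have hr := pp_self (mo_anti hQ) (mo_pair hQ) (mo_bi hQ) (fun s => cv e (r s))
  have hpr : ∑ s, ∑ t, mo Q (cv e (r s)) (cv e (p t)) (cv e (r s)) (cv e (p t)) =
      ∑ s, ∑ t, mo Q (cv e (p s)) (cv e (r t)) (cv e (p s)) (cv e (r t)) := by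
    rw [Finset.sum_comm]
    refine Finset.sum_congr rfl fun s _ => Finset.sum_congr rfl fun t _ => ?_
    rw [mo_anti hQ, mo_pair hQ, mo_anti hQ, mo_pair hQ]
    ring
  simp only [Fintype.sum_sum_type, Sum.elim_inl, Sum.elim_inr, Finset.sum_add_distrib]
  rw [hpr, hp, hr]
  simp only [QSC, pp, U1, W1, U2, W2, U3, W3, Fin.sum_univ_two, Matrix.cons_val_zero,
    Matrix.cons_val_one]
  have q1 := mo_pair hQ (cv e (p 0)) (cv e (p 1)) (cv e (r 0)) (cv e (r 1))
  have q2 := mo_pair hQ (cv e (p 0)) (cv e (p 1)) (cv e (r 2)) (cv e (r 3))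
  have q3 := mo_pair hQ (cv e (p 2)) (cv e (p 3)) (cv e (r 0)) (cv e (r 1))
  have q4 := mo_pair hQ (cv e (p 2)) (cv e (p 3)) (cv e (r 2)) (cv e (r 3))
  have q5 := mo_pair hQ (cv e (p 0)) (cv e (p 2)) (cv e (r 0)) (cv e (r 2))
  have q6 := mo_pair hQ (cv e (p 0)) (cv e (p 2)) (cv e (r 3)) (cv e (r 1))
  have q7 := mo_pair hQ (cv e (p 3)) (cv e (p 1)) (cv e (r 0)) (cv e (r 2))
  have q8 := mo_pair hQ (cv e (p 3)) (cv e (p 1)) (cv e (r 3)) (cv e (r 1))
  have q9 := mo_pair hQ (cv e (p 0)) (cv e (p 3)) (cv e (r 0)) (cv e (r 3))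
  have q10 := mo_pair hQ (cv e (p 0)) (cv e (p 3)) (cv e (r 1)) (cv e (r 2))
  have q11 := mo_pair hQ (cv e (p 1)) (cv e (p 2)) (cv e (r 0)) (cv e (r 3))
  have q12 := mo_pair hQ (cv e (p 1)) (cv e (p 2)) (cv e (r 1)) (cv e (r 2))
  rw [q1, q2, q3, q4, q5, q6, q7, q8, q9, q10, q11, q12]
  ring

end forms

end Pool.Agent.R770.QC
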