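import Pool.Agent.R770.QC.Sep

/-!
# Separation, second part
-/

set_option autoImplicit false

namespace Pool.Agent.R770.QC

open Pool.Agent.Y195.HF Pool.Agent.W666.GB Pool.Agent.W669.HD Pool.Agent.R770.NS Finset
open scoped NNReal

variable {m : ℕ}

/-- indices -/
abbrev I4 (m : ℕ) := (Fin m × Bool) × (Fin m × Bool) × (Fin m × Bool) × (Fin m × Bool)

/-- components of a tensor -/
def ct (v : EuclideanSpace ℝ (I4 m)) : T4 m := fun i j k l => v (i, j, k, l)

/-- The space of algebraic curvature tensors in components. -/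
def CS (m : ℕ) : Submodule ℝ (EuclideanSpace ℝ (I4 m)) where
  carrier := {v | CC (ct v)}
  add_mem' {v w} hv hw := by
    refine ⟨fun i j k l => ?_, fun i j k l => ?_, fun i j k l => ?_⟩
    · have a := hv.anti i j k l
      have b := hw.anti i j k l
      simp only [ct, PiLp.add_apply] at a b ⊢
      linarith
    · have a := hv.pair i j k l
      have b := hw.pair i j k l
      simp only [ct, PiLp.add_apply] at a b ⊢
      linarith
    · have a := hv.bianchi i j k l
      have b := hw.bianchi i j k l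
      simp only [ct, PiLp.add_apply] at a b ⊢
      linarith
  zero_mem' := by
    refine ⟨fun i j k l => ?_, fun i j k l => ?_, fun i j k l => ?_⟩ <;>
    simp [ct]
  smul_mem' c v hv := by
    refine ⟨fun i j k l => ?_, fun i j k l => ?_, fun i j k l => ?_⟩
    · have a := hv.anti i j k l
      simp only [ct, PiLp.smul_apply, smul_eq_mul] at a ⊢
      rw [a]; ring
    · have a := hv.pair i j k l
      simp only [ct, PiLp.smul_apply, smul_eq_mul] at a ⊢
      rw [a]
    · have a := hv.bianchi i j k l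
      simp only [ct, PiLp.smul_apply, smul_eq_mul] at a ⊢
      linear_combination c * a

theorem zero_qcone : -eL (cx (fun _ _ _ _ => 0 : T4 m)) ∈ qcone m 2 := by
  have h : (fun _ _ _ _ => 0 : T4 m) = fun i j k l => (0 : ℝ) * (fun _ _ _ _ => 0 : T4 m) i j k l := by
    funext i j k l
    simp
  rw [h, eL_csmul, zero_smul, neg_zero]
  exact (qcone m 2).zero_mem

/-- The cone. -/
def pcone (m : ℕ) : PointedCone ℝ (CS m) where
  carrier := {v | -eL (cx (ct v.1)) ∈ qcone m 2}
  add_mem' {v w} hv hw := by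
    have hsum : eL (cx (fun i j k l => ct v.1 i j k l + ct w.1 i j k l : T4 m)) =
        eL (cx (ct v.1)) + eL (cx (ct w.1)) := by
      rw [← eL_add (cx (ct v.1))]
      congr 1
      funext i j k l
      simp only [cx]
      push_cast
      rfl
    have h : ct (v + w).1 = fun i j k l => ct v.1 i j k l + ct w.1 i j k l := rfl
    show -eL (cx (ct (v + w).1)) ∈ qcone m 2
    rw [h, hsum, neg_add]
    exact (qcone m 2).add_mem hv hw
  zero_mem' := zero_qcone
  smul_mem' c v hv := by
    have h : ct (c • v).1 = fun i j k l => (c : ℝ) * ct v.1 i j k l := rfl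
    show -eL (cx (ct (c • v).1)) ∈ qcone m 2
    rw [h, eL_csmul, ← smul_neg]
    exact qcone_smul hv c.2

theorem gm_closed (D : T4 m) : IsClosed {v : CS m | gm (fun _ : Fin m => D) ≤
    gm (fun _ : Fin m => (fun i j k l => D i j k l + ct v.1 i j k l : T4 m))} := by
  refine isClosed_le continuous_const ?_
  unfold gm
  refine continuous_finsetSum _ fun σ _ => continuous_finsetSum _ fun τ _ => ?_
  refine continuous_const.mul (continuous_finsetProd _ fun b _ => ?_)
  refine continuous_const.add ?_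
  unfold ct
  fun_prop

theorem closure_bound {D : T4 m} (hD : -eL (cx D) ∈ qcone m 2) {v : CS m}
    (hv : v ∈ closure (pcone m : Set (CS m))) : gm (fun _ : Fin m => D) ≤
      gm (fun _ : Fin m => (fun i j k l => D i j k l + ct v.1 i j k l : T4 m)) := by
  have h : (pcone m : Set (CS m)) ⊆ {v : CS m | gm (fun _ : Fin m => D) ≤
    gm (fun _ : Fin m => (fun i j k l => D i j k l + ct v.1 i j k l : T4 m))} :=
    fun w hw => gm_q hD hw
  exact closure_minimal h (gm_closed D) hv

theorem inner_CS (v w : CS m) : inner ℝ v w = pr (ct v.1) (ct w.1) := by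
  rw [Submodule.coe_inner, PiLp.inner_apply]
  unfold pr ct
  refine Finset.sum_congr rfl fun p _ => ?_
  simp [mul_comm]

/-- separation -/
theorem sep {v : CS m} (hv : v ∉ closure (pcone m : Set (CS m))) :
    ∃ y : CS m, (∀ x ∈ pcone m, 0 ≤ pr (ct x.1) (ct y.1)) ∧ pr (ct v.1) (ct y.1) < 0 := by
  let C : ProperCone ℝ (CS m) := Submodule.closure (pcone m)
  have hv' : v ∉ C := hv
  obtain ⟨y, h1, h2⟩ := ProperCone.hyperplane_separation' C hv'
  refine ⟨y, fun x hx => ?_, ?_⟩
  · rw [← inner_CS]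
    exact h1 x (subset_closure hx)
  · rw [← inner_CS]
    exact h2

section ext

variable {V : Type} [NormedAddCommGroup V] [InnerProductSpace ℝ V]

/-- the algebraic curvature tensor with given components -/
noncomputable def qv (Q : T4 m) (e : Fin m × Bool → V) (x y z w : V) : ℝ :=
  mo Q (cv e x) (cv e y) (cv e z) (cv e w)

theorem qv_curv {Q : T4 m} (hQ : CC Q) (e : Fin m × Bool → V) : AlgCurv (qv Q e) where
  add x x' y z w := by
    unfold qv mo
    rw [← pr_add Q (fun i j k l => cv e x i * cv e y j * cv e z k * cv e w l)]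
    congr 1
    funext i j k l
    simp only [cv, inner_add_left]
    ring
  smul t x y z w := by
    unfold qv mo
    rw [← pr_smul Q (fun i j k l => cv e x i * cv e y j * cv e z k * cv e w l)]
    congr 1
    funext i j k l
    simp only [cv, real_inner_smul_left]
    ring
  anti x y z w := mo_anti hQ _ _ _ _
  pair x y z w := mo_pair hQ _ _ _ _
  bianchi x y z w := mo_bi hQ _ _ _ _

theorem qv_comp (Q : T4 m) (e : OrthonormalBasis (Fin m × Bool) ℝ V) (i j k l : Fin m × Bool) :
    qv Q e (e i) (e j) (e k) (e l) = Q i j k l := by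
  classical
  unfold qv mo pr cv
  rw [Finset.sum_eq_single (i, j, k, l)]
  · simp [inner_e]
  · rintro ⟨a, b, c, d⟩ _ h
    simp only [inner_e]
    by_cases h1 : i = a
    · by_cases h2 : j = b
      · by_cases h3 : k = c
        · have h4 : l ≠ d := fun h4 => h (by rw [h1, h2, h3, h4])
          simp [h4]
        · simp [h3]
      · simp [h2]
    · simp [h1]
  · intro h
    exact absurd (Finset.mem_univ _) h

/-- the pairing of two tensors in an orthonormal basis -/
noncomputable def pairing (e : OrthonormalBasis (Fin m × Bool) ℝ V) (R Q : V → V → V → V → ℝ) : ℝ :=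
  ∑ i, ∑ j, ∑ k, ∑ l, R (e i) (e j) (e k) (e l) * Q (e i) (e j) (e k) (e l)

/-- The dual condition. -/
def DualNeg (e : OrthonormalBasis (Fin m × Bool) ℝ V) (δ : ℝ) (R : V → V → V → V → ℝ) : Prop :=
  ∀ Q : V → V → V → V → ℝ, AlgCurv Q → (∀ p r : Fin 4 → V, 0 ≤ QSC Q p r) →
    pairing e (fun x y z w => R x y z w + δ * unitT x y z w) Q ≤ 0

theorem pairing_pr (e : OrthonormalBasis (Fin m × Bool) ℝ V) (R : V → V → V → V → ℝ) (Q : T4 m) :
    pairing e R (qv Q e) = pr (cp e R) Q := by
  unfold pairing pr cp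
  simp only [qv_comp, Fintype.sum_prod_type]

theorem pr_comm (Q T : T4 m) : pr Q T = pr T Q := by
  unfold pr
  exact Finset.sum_congr rfl fun p _ => mul_comm _ _

theorem cc_cp {R : V → V → V → V → ℝ} (hR : AlgCurv R) (e : OrthonormalBasis (Fin m × Bool) ℝ V) :
    CC (cp e R) :=
  ⟨fun _ _ _ _ => hR.anti _ _ _ _, fun _ _ _ _ => hR.pair _ _ _ _,
    fun _ _ _ _ => hR.bianchi _ _ _ _⟩

theorem dual_mem (e : OrthonormalBasis (Fin m × Bool) ℝ V) {R : V → V → V → V → ℝ}
    (hR : AlgCurv R) {δ : ℝ} (h : DualNeg e δ R) {v : CS m}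
    (hv : ct v.1 = fun i j k l => -(cp e R i j k l + δ * unitCurv i j k l)) :
    v ∈ closure (pcone m : Set (CS m)) := by
  by_contra hn
  obtain ⟨y, h1, h2⟩ := sep hn
  have hy : CC (ct y.1) := y.2
  have h3 := h (qv (ct y.1) e) (qv_curv hy e) fun p r => by
    have hq := two_QPos p r
    -- the tensor of the form belongs to the cone
    have hE := EH_mem hq (m := m) (fun i => e i)
    have hcur : CC (fun i j k l => EH (sf (Sum.elim p r))
      (bf (Sum.elim (U1 p) (U1 r)) (Sum.elim (W1 p) (W1 r)))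
      (bf (Sum.elim (U2 p) (U2 r)) (Sum.elim (W2 p) (W2 r)))
      (bf (Sum.elim (U3 p) (U3 r)) (Sum.elim (W3 p) (W3 r))) (e i) (e j) (e k) (e l)) := by
      have c0 := hq.symm.curv
      have c1 := hq.skew₁.curv
      have c2 := hq.skew₂.curv
      have c3 := hq.skew₃.curv
      refine ⟨fun i j k l => ?_, fun i j k l => ?_, fun i j k l => ?_⟩
      · simp only [EH]
        rw [c0.anti (e i), c1.anti (e i), c2.anti (e i), c3.anti (e i)]
        ring
      · simp only [EH]
        rw [c0.pair (e i), c1.pair (e i), c2.pair (e i), c3.pair (e i)]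
      · simp only [EH]
        have b0 := c0.bianchi (e i) (e j) (e k) (e l)
        have b1 := c1.bianchi (e i) (e j) (e k) (e l)
        have b2 := c2.bianchi (e i) (e j) (e k) (e l)
        have b3 := c3.bianchi (e i) (e j) (e k) (e l)
        linarith
    let x : CS m := ⟨WithLp.toLp 2 fun q : I4 m => EH (sf (Sum.elim p r))
      (bf (Sum.elim (U1 p) (U1 r)) (Sum.elim (W1 p) (W1 r)))
      (bf (Sum.elim (U2 p) (U2 r)) (Sum.elim (W2 p) (W2 r)))
      (bf (Sum.elim (U3 p) (U3 r)) (Sum.elim (W3 p) (W3 r))) (e q.1) (e q.2.1) (e q.2.2.1)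
      (e q.2.2.2), hcur⟩
    have hx : x ∈ pcone m := hE
    have h4 := h1 x hx
    rw [pr_comm] at h4
    have h5 := pr_EH hy (fun i => e i) p r
    have h6 : 0 ≤ 12 * QSC (mo (ct y.1)) (fun s => cv e (p s)) (fun s => cv e (r s)) := by
      rw [← h5]
      exact h4
    have h7 : QSC (qv (ct y.1) e) p r =
      QSC (mo (ct y.1)) (fun s => cv e (p s)) (fun s => cv e (r s)) := rfl
    rw [h7]
    linarith
  rw [pairing_pr] at h3
  have h8 : pr (ct v.1) (ct y.1) = - pr (cp e fun x y z w => R x y z w + δ * unitT x y z w)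
      (ct y.1) := by
    rw [hv]
    unfold pr
    rw [← Finset.sum_neg_distrib]
    refine Finset.sum_congr rfl fun p _ => ?_
    simp only [cp, cp_unit]
    ring
  linarith

/-- The bound under the dual condition. -/
theorem dual_bound (e : OrthonormalBasis (Fin m × Bool) ℝ V) {R : V → V → V → V → ℝ}
    (hR : AlgCurv R) {δ : ℝ} (hδ : 0 ≤ δ) (h : DualNeg e δ R) :
    roundGB m δ ≤ (-1) ^ m * gbc e R := by
  classical
  rw [gbc_eq]
  have hπ := Real.pi_pos
  have hc : 0 < 1 / ((8 * Real.pi) ^ m * (m.factorial : ℝ)) := by positivity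
  have hr : roundGB m δ = 1 / ((8 * Real.pi) ^ m * m.factorial) *
      (2 ^ m * (δ ^ m * (2 * m).factorial)) := by
    unfold roundGB
    have : (8 * Real.pi) ^ m = 2 ^ m * (4 * Real.pi) ^ m := by
      rw [← mul_pow]; congr 1; ring
    rw [this]
    field_simp
  rw [hr]
  refine mul_le_mul_of_nonneg_left ?_ hc.le
  have hD : -eL (cx (fun i j k l => δ * unitCurv i j k l : T4 m)) ∈ qcone m 2 := by
    have h1 := EH_mem (inner_QPos (V := V) zero_le_one) (fun i => e i)
    have h2 := qcone_smul h1 (show 0 ≤ δ / 3 by positivity)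
    rw [smul_neg, ← eL_csmul] at h2
    have e0 : (fun i j k l => δ * unitCurv i j k l : T4 m) = fun i j k l => δ / 3 *
        EH (fun x y => 1 * inner ℝ x y) (fun _ _ => 0) (fun _ _ => 0) (fun _ _ => 0)
          (e i) (e j) (e k) (e l) := by
      funext i j k l
      rw [← cp_unit e]
      simp only [EH, knSq, skewCurv, unitT]
      ring
    rw [e0]
    exact h2
  have hcc : CC (fun i j k l => -(cp e R i j k l + δ * unitCurv i j k l) : T4 m) := by
    have c1 := cc_cp hR e
    have c0 : AlgCurv (unitT : V → V → V → V → ℝ) := by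
      have h := (inner_QPos (V := V) zero_le_one).symm.curv
      simp only [one_mul] at h
      exact h
    have c2 : CC (cp e (unitT : V → V → V → V → ℝ)) := cc_cp c0 e
    simp only [← cp_unit e]
    refine ⟨fun i j k l => ?_, fun i j k l => ?_, fun i j k l => ?_⟩
    · have a := c1.anti i j k l
      have b := c2.anti i j k l
      simp only [cp] at a b ⊢
      rw [a, b]
      ring
    · have a := c1.pair i j k l
      have b := c2.pair i j k l
      simp only [cp] at a b ⊢
      rw [a, b]
    · have a := c1.bianchi i j k l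
      have b := c2.bianchi i j k l
      simp only [cp] at a b ⊢
      linear_combination (-1 : ℝ) * a - δ * b
  let v : CS m := ⟨WithLp.toLp 2 fun q : I4 m => -(cp e R q.1 q.2.1 q.2.2.1 q.2.2.2 +
    δ * unitCurv q.1 q.2.1 q.2.2.1 q.2.2.2), hcc⟩
  have hv := closure_bound hD (dual_mem e hR h (v := v) rfl)
  rw [unit_gm] at hv
  refine hv.trans (le_of_eq ?_)
  congr 1
  funext _ i j k l
  show δ * unitCurv i j k l + -(cp e R i j k l + δ * unitCurv i j k l) = cp e (negT R) i j k l
  simp only [cp, negT]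
  ring

/-- The complex sectional curvature of `Q`, for the complex vectors `z₀ + i z₁` and `w₀ + i w₁`. -/
def CSC {X : Type*} (Q : X → X → X → X → ℝ) (z₀ z₁ w₀ w₁ : X) : ℝ :=
  Q z₀ w₀ z₀ w₀ + Q z₀ w₁ z₀ w₁ + Q z₁ w₀ z₁ w₀ + Q z₁ w₁ z₁ w₁ - 2 * Q z₀ z₁ w₀ w₁

/-- The dual condition for the complex sectional curvature. -/
def DualNegC (e : OrthonormalBasis (Fin m × Bool) ℝ V) (δ : ℝ) (R : V → V → V → V → ℝ) : Prop :=
  ∀ Q : V → V → V → V → ℝ, AlgCurv Q → (∀ z₀ z₁ w₀ w₁ : V, 0 ≤ CSC Q z₀ z₁ w₀ w₁) →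
    pairing e (fun x y z w => R x y z w + δ * unitT x y z w) Q ≤ 0

theorem zero_left {Q : V → V → V → V → ℝ} (hQ : AlgCurv Q) (y z w : V) : Q 0 y z w = 0 := by
  have h := hQ.smul 0 0 y z w
  rwa [zero_smul, zero_mul] at h

theorem DualNegC.dualNeg {e : OrthonormalBasis (Fin m × Bool) ℝ V} {δ : ℝ}
    {R : V → V → V → V → ℝ} (h : DualNegC e δ R) : DualNeg e δ R := by
  intro Q hQ hq
  refine h Q hQ fun z₀ z₁ w₀ w₁ => ?_
  have h1 := hq ![z₀, z₁, 0, 0] ![w₀, w₁, 0, 0]
  have a1 : ∀ y z w, Q 0 y z w = 0 := zero_left hQ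
  have a2 : ∀ y z w, Q y 0 z w = 0 := fun y z w => by rw [hQ.anti 0 y z w, a1, neg_zero]
  have a3 : ∀ y z w, Q y z 0 w = 0 := fun y z w => by rw [hQ.pair 0 w y z, a1]
  have a4 : ∀ y z w, Q y z w 0 = 0 := fun y z w => by rw [hQ.pair w 0 y z, a2]
  simp only [QSC, Fin.sum_univ_four, Matrix.cons_val_zero, Matrix.cons_val_one, Matrix.cons_val,
    a1, a2, a3, a4] at h1
  unfold CSC
  linarith

end ext

end Pool.Agent.R770.QC
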